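import Mathlib

set_option autoImplicit false

/-!
# A smooth periodic function which is the identity near `0`
-/

namespace Pool.Agent.H97.Iso

/-- A smooth `1`-periodic function, bounded by `1`, equal to the identity near `0`. -/
theorem exists_saw : ∃ s : ℝ → ℝ, ContDiff ℝ (⊤ : ℕ∞) s ∧ (∀ t, s (t + 1) = s t) ∧
    (∀ t, |s t| ≤ 1) ∧ ∀ t, |t| ≤ 1 / 12 → s t = t := by
  have hπ := Real.pi_pos
  have hπ3 := Real.pi_gt_three
  let χ : ContDiffBump (0 : ℝ) := ⟨1 / 2, 3 / 4, by norm_num, by norm_num⟩
  have hχin : ∀ y : ℝ, |y| ≤ 1 / 2 → χ y = 1 := by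
    intro y hy
    apply χ.one_of_mem_closedBall
    rw [mem_closedBall_zero_iff, Real.norm_eq_abs]
    exact hy
  have hχout : ∀ y : ℝ, 3 / 4 ≤ |y| → χ y = 0 := by
    intro y hy
    apply χ.zero_of_le_dist
    rw [dist_zero_right, Real.norm_eq_abs]
    exact hy
  have hsm : ContDiff ℝ (⊤ : ℕ∞) fun y : ℝ => χ y * Real.arcsin y := by
    rw [contDiff_iff_contDiffAt]
    intro y
    rcases lt_or_ge |y| 1 with h | h
    · have h2 := abs_lt.1 h
      exact χ.contDiff.contDiffAt.mul (Real.contDiffAt_arcsin (by linarith) (by linarith))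
    · have hev : (fun y : ℝ => χ y * Real.arcsin y) =ᶠ[nhds y] fun _ => 0 := by
        have h3 : ∀ᶠ z : ℝ in nhds y, 3 / 4 < |z| :=
          continuous_abs.continuousAt.eventually (lt_mem_nhds (by linarith))
        filter_upwards [h3] with z hz
        rw [hχout z hz.le, zero_mul]
      exact contDiffAt_const.congr_of_eventuallyEq hev
  have hsin : ContDiff ℝ (⊤ : ℕ∞) fun t : ℝ => Real.sin (2 * Real.pi * t) :=
    Real.contDiff_sin.comp (contDiff_const.mul contDiff_id)
  refine ⟨fun t => (χ (Real.sin (2 * Real.pi * t)) * Real.arcsin (Real.sin (2 * Real.pi * t))) /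
    (2 * Real.pi), (hsm.comp hsin).div_const _, ?_, ?_, ?_⟩
  · intro t
    simp only
    rw [show 2 * Real.pi * (t + 1) = 2 * Real.pi * t + 2 * Real.pi by ring, Real.sin_add_two_pi]
  · intro t
    simp only
    have h1 : |χ (Real.sin (2 * Real.pi * t))| ≤ 1 := by
      rw [abs_of_nonneg χ.nonneg]
      exact χ.le_one
    have h2 : |Real.arcsin (Real.sin (2 * Real.pi * t))| ≤ Real.pi / 2 :=
      abs_le.2 ⟨Real.neg_pi_div_two_le_arcsin _, Real.arcsin_le_pi_div_two _⟩
    rw [abs_div, abs_mul, abs_of_pos (by positivity : 0 < 2 * Real.pi), div_le_one (by positivity)]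
    have h3 := mul_le_mul h1 h2 (abs_nonneg _) zero_le_one
    linarith
  · intro t ht
    simp only
    have ht2 := abs_le.1 ht
    have hx1 : -(Real.pi / 6) ≤ 2 * Real.pi * t := by nlinarith only [hπ, ht2.1]
    have hx2 : 2 * Real.pi * t ≤ Real.pi / 6 := by nlinarith only [hπ, ht2.2]
    have h1 : Real.arcsin (Real.sin (2 * Real.pi * t)) = 2 * Real.pi * t :=
      Real.arcsin_sin (by linarith only [hπ3, hx1]) (by linarith only [hπ3, hx2])
    have h2 : |Real.sin (2 * Real.pi * t)| ≤ 1 / 2 := by
      rw [abs_le]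
      constructor
      · have := Real.sin_le_sin_of_le_of_le_pi_div_two (x := -(Real.pi / 6)) (by linarith only [hπ3])
          (by linarith) hx1
        rw [Real.sin_neg, Real.sin_pi_div_six] at this
        linarith only [this]
      · have := Real.sin_le_sin_of_le_of_le_pi_div_two (x := 2 * Real.pi * t) (by linarith only [hπ3, hx1])
          (by linarith only [hπ3]) hx2
        rwa [Real.sin_pi_div_six] at this
    rw [hχin _ h2, h1, one_mul]
    field_simp

end Pool.Agent.H97.Iso
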