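import Pool.Agent.H97.Iso.Fourier
import Pool.Agent.H97.Iso.Bump
import Pool.Agent.H13.Steklov.FourierDecay

set_option autoImplicit false

/-!
# Fourier series of smooth periodic functions with small coefficients
-/

namespace Pool.Agent.H97.Iso

open Set Metric Filter Topology Pool.Agent.H13.Steklov

lemma norm_c_le (F : ℝ × ℝ → ℂ) {C : ℝ}
    (hC : ∀ z ∈ Icc (0 : ℝ) 1 ×ˢ Icc (0 : ℝ) 1, ‖F z‖ ≤ C) (k : ℤ × ℤ) :
    ‖FourierDecay_c F k‖ ≤ C := by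
  unfold FourierDecay_c
  have h1 : ∀ y ∈ Set.uIoc (0 : ℝ) 1, ‖FourierDecay_e (-k.2) y *
      ∫ x in (0 : ℝ)..1, FourierDecay_e (-k.1) x * F (x, y)‖ ≤ C := by
    intro y hy
    rw [norm_mul, FourierDecay_e_norm, one_mul]
    have h2 : ∀ x ∈ Set.uIoc (0 : ℝ) 1, ‖FourierDecay_e (-k.1) x * F (x, y)‖ ≤ C := by
      intro x hx
      rw [norm_mul, FourierDecay_e_norm, one_mul]
      rw [uIoc_of_le zero_le_one] at hx hy
      exact hC _ ⟨Ioc_subset_Icc_self hx, Ioc_subset_Icc_self hy⟩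
    have := intervalIntegral.norm_integral_le_of_norm_le_const h2
    simpa using this
  have := intervalIntegral.norm_integral_le_of_norm_le_const h1
  simpa using this

/-- The decay of the Fourier coefficients with an explicit constant. -/
lemma decay_explicit {F : ℝ × ℝ → ℂ} (hF : FourierDecay_P F) (m : ℕ) {ε : ℝ}
    (hA : ∀ z ∈ Icc (0 : ℝ) 1 ×ˢ Icc (0 : ℝ) 1, ‖F z‖ ≤ ε)
    (hB : ∀ z ∈ Icc (0 : ℝ) 1 ×ˢ Icc (0 : ℝ) 1, ‖((FourierDecay_D (1, 0))^[m] F) z‖ ≤ ε)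
    (hD : ∀ z ∈ Icc (0 : ℝ) 1 ×ˢ Icc (0 : ℝ) 1, ‖((FourierDecay_D (0, 1))^[m] F) z‖ ≤ ε)
    (k : ℤ × ℤ) :
    ‖FourierDecay_c F k‖ * (1 + |(k.1 : ℝ)| + |(k.2 : ℝ)|) ^ m ≤ 3 ^ m * (3 * ε) := by
  obtain ⟨i1, i2, i3⟩ := FourierDecay_iter hF m
  have hA0 := norm_c_le F hA k
  have hB0 := norm_c_le _ hB k
  have hD0 := norm_c_le _ hD k
  rw [(i3 k).1, norm_mul, norm_pow] at hB0
  rw [(i3 k).2, norm_mul, norm_pow] at hD0
  have hc := norm_nonneg (FourierDecay_c F k)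
  have hB1 : |(k.1 : ℝ)| ^ m * ‖FourierDecay_c F k‖ ≤ ε :=
    (mul_le_mul_of_nonneg_right (pow_le_pow_left₀ (abs_nonneg _) (FourierDecay_norm2 _) m) hc).trans
      hB0
  have hD1 : |(k.2 : ℝ)| ^ m * ‖FourierDecay_c F k‖ ≤ ε :=
    (mul_le_mul_of_nonneg_right (pow_le_pow_left₀ (abs_nonneg _) (FourierDecay_norm2 _) m) hc).trans
      hD0
  have a1 := abs_nonneg (k.1 : ℝ)
  have a2 := abs_nonneg (k.2 : ℝ)
  have hmax : (1 + |(k.1 : ℝ)| + |(k.2 : ℝ)|) ^ m ≤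
      3 ^ m * (1 + |(k.1 : ℝ)| ^ m + |(k.2 : ℝ)| ^ m) := by
    set M := max 1 (max |(k.1 : ℝ)| |(k.2 : ℝ)|) with hM
    have e1 : (1 : ℝ) ≤ M := le_max_left _ _
    have e2 : |(k.1 : ℝ)| ≤ M := (le_max_left _ _).trans (le_max_right _ _)
    have e3 : |(k.2 : ℝ)| ≤ M := (le_max_right _ _).trans (le_max_right _ _)
    have e4 : (1 + |(k.1 : ℝ)| + |(k.2 : ℝ)|) ^ m ≤ (3 * M) ^ m := by
      apply pow_le_pow_left₀ (by positivity)
      linarith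
    rw [mul_pow] at e4
    refine e4.trans (mul_le_mul_of_nonneg_left ?_ (by positivity))
    have f1 : (0 : ℝ) ≤ |(k.1 : ℝ)| ^ m := by positivity
    have f2 : (0 : ℝ) ≤ |(k.2 : ℝ)| ^ m := by positivity
    rcases max_choice (1 : ℝ) (max |(k.1 : ℝ)| |(k.2 : ℝ)|) with h | h
    · rw [hM, h, one_pow]; linarith
    · rcases max_choice |(k.1 : ℝ)| |(k.2 : ℝ)| with h' | h'
      · rw [hM, h, h']; linarith
      · rw [hM, h, h']; linarith
  calc ‖FourierDecay_c F k‖ * (1 + |(k.1 : ℝ)| + |(k.2 : ℝ)|) ^ m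
      ≤ ‖FourierDecay_c F k‖ * (3 ^ m * (1 + |(k.1 : ℝ)| ^ m + |(k.2 : ℝ)| ^ m)) :=
        mul_le_mul_of_nonneg_left hmax hc
    _ = 3 ^ m * (‖FourierDecay_c F k‖ + |(k.1 : ℝ)| ^ m * ‖FourierDecay_c F k‖ +
        |(k.2 : ℝ)| ^ m * ‖FourierDecay_c F k‖) := by ring
    _ ≤ 3 ^ m * (3 * ε) := by
        apply mul_le_mul_of_nonneg_left _ (by positivity)
        linarith

/-- The partial directional derivative. -/
noncomputable def DD (v : ℝ × ℝ) (G : ℝ × (ℝ × ℝ) → ℂ) (q : ℝ × (ℝ × ℝ)) : ℂ :=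
  fderiv ℝ G q (0, v)

lemma DD_smooth (v : ℝ × ℝ) {G : ℝ × (ℝ × ℝ) → ℂ} (hG : ContDiff ℝ (⊤ : ℕ∞) G) :
    ContDiff ℝ (⊤ : ℕ∞) (DD v G) :=
  (hG.fderiv_right (m := (⊤ : ℕ∞)) (by simp)).clm_apply contDiff_const

lemma DD_slice (v : ℝ × ℝ) {G : ℝ × (ℝ × ℝ) → ℂ} (hG : ContDiff ℝ (⊤ : ℕ∞) G) (r : ℝ) :
    FourierDecay_D v (fun z => G (r, z)) = fun z => DD v G (r, z) := by
  funext z
  unfold FourierDecay_D DD
  have h1 : HasFDerivAt G (fderiv ℝ G (r, z)) (r, z) :=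
    (hG.differentiable (by simp) (r, z)).hasFDerivAt
  have h2 : HasFDerivAt (fun z : ℝ × ℝ => (r, z)) (ContinuousLinearMap.inr ℝ ℝ (ℝ × ℝ)) z :=
    hasFDerivAt_prodMk_right r z
  have h3 := h1.comp z h2
  have h4 : (G ∘ fun z : ℝ × ℝ => (r, z)) = fun z => G (r, z) := rfl
  rw [h4] at h3
  rw [h3.fderiv]
  rfl

lemma DD_iter (v : ℝ × ℝ) {G : ℝ × (ℝ × ℝ) → ℂ} (hG : ContDiff ℝ (⊤ : ℕ∞) G) (m : ℕ) :
    ContDiff ℝ (⊤ : ℕ∞) ((DD v)^[m] G) ∧
      ∀ r, (FourierDecay_D v)^[m] (fun z => G (r, z)) = fun z => ((DD v)^[m] G) (r, z) := by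
  induction m with
  | zero => exact ⟨hG, fun r => rfl⟩
  | succ m ih =>
    obtain ⟨i1, i2⟩ := ih
    simp only [Function.iterate_succ_apply']
    refine ⟨DD_smooth v i1, fun r => ?_⟩
    rw [i2 r, DD_slice v i1]

lemma D_zero (v : ℝ × ℝ) (m : ℕ) :
    (FourierDecay_D v)^[m] (fun _ => (0 : ℂ)) = fun _ => (0 : ℂ) := by
  induction m with
  | zero => rfl
  | succ m ih =>
    rw [Function.iterate_succ_apply', ih]
    funext z
    simp [FourierDecay_D]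

/-- Uniform smallness near `r = 0` of a continuous function vanishing for `r = 0`. -/
lemma unif_small {Φ : ℝ × (ℝ × ℝ) → ℂ} (hΦ : Continuous Φ) (h0 : ∀ z, Φ (0, z) = 0) {ε : ℝ}
    (hε : 0 < ε) :
    ∀ᶠ r in 𝓝 (0 : ℝ), ∀ z ∈ Icc (0 : ℝ) 1 ×ˢ Icc (0 : ℝ) 1, ‖Φ (r, z)‖ ≤ ε := by
  have hK : IsCompact (Icc (0 : ℝ) 1 ×ˢ Icc (0 : ℝ) 1) := isCompact_Icc.prod isCompact_Icc
  refine hK.eventually_forall_of_forall_eventually fun z _ => ?_
  have h1 : ContinuousAt (fun q : ℝ × (ℝ × ℝ) => ‖Φ q‖) (0, z) := hΦ.norm.continuousAt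
  have h2 : ‖Φ (0, z)‖ < ε := by rw [h0, norm_zero]; exact hε
  have h3 := h1.eventually_lt continuousAt_const h2
  filter_upwards [h3] with q hq
  exact hq.le

lemma E_eq (k : ℤ × ℤ) (z : ℝ × ℝ) :
    E k z = FourierDecay_e k.1 z.1 * FourierDecay_e k.2 z.2 := by
  unfold E FourierDecay_e
  rw [← Complex.exp_add]
  congr 1
  ring

lemma wt_le_add (k : ℤ × ℤ) : wt k ≤ 1 + |(k.1 : ℝ)| + |(k.2 : ℝ)| := by
  unfold wt
  have h : ‖k‖ = max ‖k.1‖ ‖k.2‖ := rfl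
  rw [h, Int.norm_eq_abs, Int.norm_eq_abs]
  have h1 := abs_nonneg (k.1 : ℝ)
  have h2 := abs_nonneg (k.2 : ℝ)
  rcases max_choice |(k.1 : ℝ)| |(k.2 : ℝ)| with h3 | h3 <;> rw [h3] <;> linarith

lemma rap_c {F : ℝ × ℝ → ℂ} (hF : FourierDecay_P F) : Rap (FourierDecay_c F) := by
  intro s
  obtain ⟨C, hC⟩ := FourierDecay_decay hF (s + 4)
  refine Summable.of_nonneg_of_le (fun k => ?_) (fun k => ?_) (FourierDecay_sumZZ.mul_left C)
  · have := wt_pos k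
    positivity
  · have a1 := abs_nonneg (k.1 : ℝ)
    have a2 := abs_nonneg (k.2 : ℝ)
    have hp : (0 : ℝ) < (1 + |(k.1 : ℝ)| + |(k.2 : ℝ)|) ^ 4 := by positivity
    rw [mul_one_div, le_div_iff₀ hp]
    have h1 := hC k
    rw [pow_add] at h1
    have h2 : wt k ^ s ≤ (1 + |(k.1 : ℝ)| + |(k.2 : ℝ)|) ^ s :=
      pow_le_pow_left₀ (wt_pos k).le (wt_le_add k) s
    calc wt k ^ s * ‖FourierDecay_c F k‖ * (1 + |(k.1 : ℝ)| + |(k.2 : ℝ)|) ^ 4
        ≤ (1 + |(k.1 : ℝ)| + |(k.2 : ℝ)|) ^ s * ‖FourierDecay_c F k‖ *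
          (1 + |(k.1 : ℝ)| + |(k.2 : ℝ)|) ^ 4 := by gcongr
      _ = ‖FourierDecay_c F k‖ * ((1 + |(k.1 : ℝ)| + |(k.2 : ℝ)|) ^ s *
          (1 + |(k.1 : ℝ)| + |(k.2 : ℝ)|) ^ 4) := by ring
      _ ≤ C := h1

/-- A smooth family `H (r, ·)` of periodic functions with `H (0, ·) = 0` has Fourier series with
rapidly decreasing coefficients whose sum is small for small `r`. -/
theorem family_small {H : ℝ × (ℝ × ℝ) → ℝ} (hH : ContDiff ℝ (⊤ : ℕ∞) H)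
    (h1 : ∀ r x y, H (r, (x + 1, y)) = H (r, (x, y)))
    (h2 : ∀ r x y, H (r, (x, y + 1)) = H (r, (x, y)))
    (h0 : ∀ z, H (0, z) = 0) {η : ℝ} (hη : 0 < η) :
    ∃ r₀ > 0, ∀ r, 0 ≤ r → r ≤ r₀ → ∃ c : ℤ × ℤ → ℂ, Rap c ∧ ∑' k, ‖c k‖ ≤ η ∧
      ∀ z, Fs c z = (H (r, z) : ℂ) := by
  set G : ℝ × (ℝ × ℝ) → ℂ := fun q => (H q : ℂ) with hGdef
  have hG : ContDiff ℝ (⊤ : ℕ∞) G := Complex.ofRealCLM.contDiff.comp hH
  have hP : ∀ r, FourierDecay_P (fun z => G (r, z)) := by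
    intro r
    refine ⟨hG.comp (contDiff_const.prodMk contDiff_id), fun y => ?_, fun y => ?_⟩
    · have := h1 r y.1 y.2
      have e : y + (1, 0) = (y.1 + 1, y.2) := by ext <;> simp
      simp only [hGdef, e, this]
    · have := h2 r y.1 y.2
      have e : y + (0, 1) = (y.1, y.2 + 1) := by ext <;> simp
      simp only [hGdef, e, this]
  have hz : (fun z => G (0, z)) = fun _ => (0 : ℂ) := by
    funext z
    simp [hGdef, h0]
  set S : ℝ := ∑' k : ℤ × ℤ, 1 / (1 + |(k.1 : ℝ)| + |(k.2 : ℝ)|) ^ 4 with hS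
  have hS0 : 0 ≤ S := tsum_nonneg fun k => by positivity
  obtain ⟨ε, hε, hεη⟩ : ∃ ε > 0, 3 ^ 4 * (3 * ε) * S ≤ η := by
    refine ⟨η / (243 * (S + 1)), by positivity, ?_⟩
    have h : 3 ^ 4 * (3 * (η / (243 * (S + 1)))) * S = η * (S / (S + 1)) := by
      field_simp
      norm_num
    rw [h]
    have h' : S / (S + 1) ≤ 1 := by
      rw [div_le_one (by positivity)]
      linarith
    nlinarith
  obtain ⟨j1, j2⟩ := DD_iter (1, 0) hG 4
  obtain ⟨l1, l2⟩ := DD_iter (0, 1) hG 4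
  have e1 := unif_small hG.continuous (fun z => by simpa using congrFun hz z) hε
  have e2 := unif_small j1.continuous (fun z => by
    have := congrFun (j2 0) z
    rw [hz, D_zero] at this
    exact this.symm) hε
  have e3 := unif_small l1.continuous (fun z => by
    have := congrFun (l2 0) z
    rw [hz, D_zero] at this
    exact this.symm) hε
  obtain ⟨δ, hδ, hδ'⟩ := Metric.eventually_nhds_iff.1 (e1.and (e2.and e3))
  refine ⟨δ / 2, by positivity, fun r hr0 hr => ?_⟩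
  obtain ⟨f1, f2, f3⟩ := hδ' (show dist r 0 < δ by
    rw [Real.dist_eq, sub_zero, abs_of_nonneg hr0]; linarith)
  refine ⟨FourierDecay_c (fun z => G (r, z)), rap_c (hP r), ?_, fun z => ?_⟩
  · have g := decay_explicit (hP r) 4 (ε := ε) f1 (by rw [j2 r]; exact f2)
      (by rw [l2 r]; exact f3)
    have hsum := FourierDecay_sumZZ.mul_left (3 ^ 4 * (3 * ε))
    have hle : ∀ k : ℤ × ℤ, ‖FourierDecay_c (fun z => G (r, z)) k‖ ≤
        3 ^ 4 * (3 * ε) * (1 / (1 + |(k.1 : ℝ)| + |(k.2 : ℝ)|) ^ 4) := by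
      intro k
      have a1 := abs_nonneg (k.1 : ℝ)
      have a2 := abs_nonneg (k.2 : ℝ)
      have hp : (0 : ℝ) < (1 + |(k.1 : ℝ)| + |(k.2 : ℝ)|) ^ 4 := by positivity
      rw [mul_one_div, le_div_iff₀ hp]
      exact g k
    calc ∑' k, ‖FourierDecay_c (fun z => G (r, z)) k‖
        ≤ ∑' k : ℤ × ℤ, 3 ^ 4 * (3 * ε) * (1 / (1 + |(k.1 : ℝ)| + |(k.2 : ℝ)|) ^ 4) :=
          (FourierDecay_summable (hP r)).tsum_le_tsum hle hsum
      _ = 3 ^ 4 * (3 * ε) * S := tsum_mul_left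
      _ ≤ η := hεη
  · unfold Fs
    simp_rw [E_eq]
    exact (FourierDecay_hasSum (hP r) z).tsum_eq

/-- The zoomed coefficient: `A (p + r (s ξ₁, s ξ₂)) - A p`. -/
theorem coeff_small {U : Set (ℝ × ℝ)} (hU : IsOpen U) {p : ℝ × ℝ} (hp : p ∈ U) {A : ℝ × ℝ → ℝ}
    (hA : ContDiffOn ℝ (⊤ : ℕ∞) A U) {s : ℝ → ℝ} (hs : ContDiff ℝ (⊤ : ℕ∞) s)
    (hs1 : ∀ t, s (t + 1) = s t) (hs2 : ∀ t, |s t| ≤ 1) {η : ℝ} (hη : 0 < η) :
    ∃ r₀ > (0 : ℝ), ∀ r : ℝ, 0 < r → r ≤ r₀ → ∃ c : ℤ × ℤ → ℂ, Rap c ∧ ∑' k, ‖c k‖ ≤ η ∧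
      ∀ z : ℝ × ℝ, Fs c z = ((A (p + r • (s z.1, s z.2)) - A p : ℝ) : ℂ) := by
  obtain ⟨R, hR, hRU⟩ := Metric.isOpen_iff.1 hU p hp
  let χ : ContDiffBump p := ⟨R / 3, R / 2, by positivity, by linarith⟩
  set B : ℝ × ℝ → ℝ := fun q => χ q * A q with hB
  have hBs : ContDiff ℝ (⊤ : ℕ∞) B := by
    rw [contDiff_iff_contDiffAt]
    intro q
    by_cases hq : q ∈ U
    · exact χ.contDiff.contDiffAt.mul (hA.contDiffAt (hU.mem_nhds hq))
    · have h3 : q ∉ tsupport χ := by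
        rw [χ.tsupport_eq]
        intro h4
        apply hq
        apply hRU
        rw [mem_closedBall] at h4
        rw [mem_ball]
        have h5 : (χ.rOut : ℝ) = R / 2 := rfl
        rw [h5] at h4
        linarith
      have h4 : B =ᶠ[𝓝 q] fun _ => 0 := by
        filter_upwards [(isClosed_tsupport χ).isOpen_compl.mem_nhds h3] with x hx
        have : χ x = 0 := image_eq_zero_of_notMem_tsupport hx
        simp [hB, this]
      exact contDiffAt_const.congr_of_eventuallyEq h4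
  have hBA : ∀ q, dist q p ≤ R / 3 → B q = A q := by
    intro q hq
    have : χ q = 1 := χ.one_of_mem_closedBall (by rw [mem_closedBall]; exact hq)
    simp [hB, this]
  set H : ℝ × (ℝ × ℝ) → ℝ := fun q => B (p + q.1 • (s q.2.1, s q.2.2)) - B p with hH
  have hHs : ContDiff ℝ (⊤ : ℕ∞) H := by
    refine ContDiff.sub (hBs.comp ?_) contDiff_const
    refine contDiff_const.add (contDiff_fst.smul ?_)
    exact (hs.comp (contDiff_fst.comp contDiff_snd)).prodMk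
      (hs.comp (contDiff_snd.comp contDiff_snd))
  obtain ⟨r₀, hr₀, hfam⟩ := family_small (H := H) hHs
    (fun r x y => by simp only [hH, hs1]) (fun r x y => by simp only [hH, hs1])
    (fun z => by simp only [hH, zero_smul, add_zero, sub_self]) hη
  refine ⟨min r₀ (R / 3), by positivity, fun r hr hr' => ?_⟩
  obtain ⟨c, c1, c2, c3⟩ := hfam r hr.le (hr'.trans (min_le_left _ _))
  refine ⟨c, c1, c2, fun z => ?_⟩
  rw [c3 z]
  have hr3 : r ≤ R / 3 := hr'.trans (min_le_right _ _)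
  have e1 : B p = A p := hBA p (by rw [dist_self]; positivity)
  have e2 : B (p + r • (s z.1, s z.2)) = A (p + r • (s z.1, s z.2)) := by
    apply hBA
    rw [dist_eq_norm, add_sub_cancel_left, norm_smul, Real.norm_of_nonneg hr.le]
    have : ‖(s z.1, s z.2)‖ ≤ 1 := by
      rw [Prod.norm_def]
      exact max_le (hs2 _) (hs2 _)
    nlinarith
  simp only [hH, e1, e2]

end Pool.Agent.H97.Iso
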