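import Mathlib

set_option autoImplicit false

/-!
# Rapidly decreasing double sequences and their Fourier series
-/

namespace Pool.Agent.H97.Iso

open scoped ENNReal NNReal

/-- The weight `1 + |k|`. -/
noncomputable def wt (k : ℤ × ℤ) : ℝ := 1 + ‖k‖

lemma one_le_wt (k : ℤ × ℤ) : 1 ≤ wt k := by unfold wt; linarith [norm_nonneg k]

lemma wt_pos (k : ℤ × ℤ) : 0 < wt k := by linarith [one_le_wt k]

lemma wt_le (k l : ℤ × ℤ) : wt k ≤ wt (k - l) * wt l := by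
  have h1 : ‖k‖ ≤ ‖k - l‖ + ‖l‖ := by
    have := norm_add_le (k - l) l
    simpa using this
  unfold wt
  nlinarith only [h1, mul_nonneg (norm_nonneg (k - l)) (norm_nonneg l)]

lemma abs_fst_le (k : ℤ × ℤ) : |(k.1 : ℝ)| ≤ ‖k‖ := by
  have := norm_fst_le k
  simpa [Int.norm_eq_abs] using this

lemma abs_snd_le (k : ℤ × ℤ) : |(k.2 : ℝ)| ≤ ‖k‖ := by
  have := norm_snd_le k
  simpa [Int.norm_eq_abs] using this

/-- Rapidly decreasing double sequences. -/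
def Rap (c : ℤ × ℤ → ℂ) : Prop := ∀ s : ℕ, Summable (fun k => wt k ^ s * ‖c k‖)

/-- The exponentials. -/
noncomputable def E (k : ℤ × ℤ) (p : ℝ × ℝ) : ℂ :=
  Complex.exp (2 * Real.pi * Complex.I * (k.1 * p.1 + k.2 * p.2))

/-- The Fourier series with the coefficients `c`. -/
noncomputable def Fs (c : ℤ × ℤ → ℂ) (p : ℝ × ℝ) : ℂ := ∑' k, c k * E k p

/-- Multiplication by `2πi k₁`. -/
noncomputable def D1 (c : ℤ × ℤ → ℂ) : ℤ × ℤ → ℂ := fun k => 2 * Real.pi * Complex.I * k.1 * c k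

/-- Multiplication by `2πi k₂`. -/
noncomputable def D2 (c : ℤ × ℤ → ℂ) : ℤ × ℤ → ℂ := fun k => 2 * Real.pi * Complex.I * k.2 * c k

/-- The convolution. -/
noncomputable def conv (b c : ℤ × ℤ → ℂ) : ℤ × ℤ → ℂ := fun k => ∑' l, b (k - l) * c l

lemma norm_E (k : ℤ × ℤ) (p : ℝ × ℝ) : ‖E k p‖ = 1 := by
  unfold E
  rw [Complex.norm_exp]
  simp

lemma E_add (k l : ℤ × ℤ) (p : ℝ × ℝ) : E (k + l) p = E k p * E l p := by
  unfold E
  rw [← Complex.exp_add]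
  congr 1
  simp only [Prod.fst_add, Prod.snd_add]
  push_cast
  ring

lemma Rap.summable {c : ℤ × ℤ → ℂ} (h : Rap c) : Summable (fun k => ‖c k‖) := by
  simpa using h 0

lemma Rap.of_bound {c d : ℤ × ℤ → ℂ} (h : Rap c) (C : ℝ) (m : ℕ)
    (hb : ∀ k, ‖d k‖ ≤ C * wt k ^ m * ‖c k‖) : Rap d := by
  intro s
  refine Summable.of_nonneg_of_le (fun k => ?_) (fun k => ?_) ((h (s + m)).mul_left C)
  · have := wt_pos k
    positivity
  · have := wt_pos k
    calc wt k ^ s * ‖d k‖ ≤ wt k ^ s * (C * wt k ^ m * ‖c k‖) := by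
          gcongr
          exact hb k
      _ = C * (wt k ^ (s + m) * ‖c k‖) := by ring

lemma Rap.zero : Rap (fun _ => 0) := by
  intro s
  simp

lemma Rap.add {c d : ℤ × ℤ → ℂ} (hc : Rap c) (hd : Rap d) : Rap (fun k => c k + d k) := by
  intro s
  refine Summable.of_nonneg_of_le (fun k => ?_) (fun k => ?_) ((hc s).add (hd s))
  · have := wt_pos k
    positivity
  · have := wt_pos k
    rw [← mul_add]
    gcongr
    exact norm_add_le _ _

lemma Rap.neg {c : ℤ × ℤ → ℂ} (hc : Rap c) : Rap (fun k => - c k) := by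
  intro s
  simpa using hc s

lemma Rap.mul_bdd {c : ℤ × ℤ → ℂ} (hc : Rap c) (n : ℤ × ℤ → ℂ) (C : ℝ) (hn : ∀ k, ‖n k‖ ≤ C) :
    Rap (fun k => n k * c k) := by
  refine hc.of_bound C 0 fun k => ?_
  rw [norm_mul, pow_zero, mul_one]
  exact mul_le_mul_of_nonneg_right (hn k) (norm_nonneg _)

lemma Rap.D1 {c : ℤ × ℤ → ℂ} (hc : Rap c) : Rap (D1 c) := by
  refine hc.of_bound (2 * Real.pi) 1 fun k => ?_
  unfold Iso.D1
  simp only [norm_mul, Complex.norm_real, Complex.norm_I, mul_one, pow_one, Complex.norm_intCast,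
    Complex.norm_ofNat, Real.norm_eq_abs, abs_of_pos Real.pi_pos]
  gcongr
  unfold wt
  linarith [abs_fst_le k]

lemma Rap.D2 {c : ℤ × ℤ → ℂ} (hc : Rap c) : Rap (D2 c) := by
  refine hc.of_bound (2 * Real.pi) 1 fun k => ?_
  unfold Iso.D2
  simp only [norm_mul, Complex.norm_real, Complex.norm_I, mul_one, pow_one, Complex.norm_intCast,
    Complex.norm_ofNat, Real.norm_eq_abs, abs_of_pos Real.pi_pos]
  gcongr
  unfold wt
  linarith [abs_snd_le k]

lemma Rap.summable_E {c : ℤ × ℤ → ℂ} (h : Rap c) (p : ℝ × ℝ) : Summable (fun k => c k * E k p) := by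
  refine Summable.of_norm ?_
  simpa [norm_E] using h.summable

lemma Fs_add {c d : ℤ × ℤ → ℂ} (hc : Rap c) (hd : Rap d) (p : ℝ × ℝ) :
    Fs (fun k => c k + d k) p = Fs c p + Fs d p := by
  unfold Fs
  rw [← (hc.summable_E p).tsum_add (hd.summable_E p)]
  simp_rw [add_mul]

lemma Fs_neg (c : ℤ × ℤ → ℂ) (p : ℝ × ℝ) : Fs (fun k => - c k) p = - Fs c p := by
  unfold Fs
  rw [← tsum_neg]
  simp_rw [neg_mul]

lemma norm_Fs_le {c : ℤ × ℤ → ℂ} (hc : Rap c) (p : ℝ × ℝ) : ‖Fs c p‖ ≤ ∑' k, ‖c k‖ := by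
  unfold Fs
  have : Summable fun k => ‖c k * E k p‖ := by simpa [norm_E] using hc.summable
  refine (norm_tsum_le_tsum_norm this).trans (le_of_eq ?_)
  simp [norm_E]

/-- The derivative of the exponential. -/
noncomputable def dE (k : ℤ × ℤ) (p : ℝ × ℝ) : ℝ × ℝ →L[ℝ] ℂ :=
  (ContinuousLinearMap.fst ℝ ℝ ℝ).smulRight (2 * Real.pi * Complex.I * k.1 * E k p) +
    (ContinuousLinearMap.snd ℝ ℝ ℝ).smulRight (2 * Real.pi * Complex.I * k.2 * E k p)

lemma hasFDerivAt_E (k : ℤ × ℤ) (p : ℝ × ℝ) : HasFDerivAt (E k) (dE k p) p := by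
  have h1 : HasFDerivAt (fun q : ℝ × ℝ => (2 * Real.pi * Complex.I * (k.1 * q.1 + k.2 * q.2) : ℂ))
      ((ContinuousLinearMap.fst ℝ ℝ ℝ).smulRight (2 * Real.pi * Complex.I * k.1 : ℂ) +
        (ContinuousLinearMap.snd ℝ ℝ ℝ).smulRight (2 * Real.pi * Complex.I * k.2 : ℂ)) p := by
    have h0 : (fun q : ℝ × ℝ => (2 * Real.pi * Complex.I * (k.1 * q.1 + k.2 * q.2) : ℂ)) =
        fun q => ((ContinuousLinearMap.fst ℝ ℝ ℝ).smulRight (2 * Real.pi * Complex.I * k.1 : ℂ) +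
        (ContinuousLinearMap.snd ℝ ℝ ℝ).smulRight (2 * Real.pi * Complex.I * k.2 : ℂ)) q := by
      funext q
      simp
      ring
    rw [h0]
    exact ContinuousLinearMap.hasFDerivAt _
  have h2 := h1.cexp
  refine h2.congr_fderiv ?_
  ext <;> simp [dE, E] <;> ring

lemma norm_dE_le (k : ℤ × ℤ) (p : ℝ × ℝ) : ‖dE k p‖ ≤ 4 * Real.pi * wt k := by
  unfold dE
  refine (norm_add_le _ _).trans ?_
  rw [ContinuousLinearMap.norm_smulRight_apply, ContinuousLinearMap.norm_smulRight_apply]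
  have h1 : ‖ContinuousLinearMap.fst ℝ ℝ ℝ‖ ≤ 1 := ContinuousLinearMap.norm_fst_le ℝ ℝ ℝ
  have h2 : ‖ContinuousLinearMap.snd ℝ ℝ ℝ‖ ≤ 1 := ContinuousLinearMap.norm_snd_le ℝ ℝ ℝ
  have h3 : ‖(2 * Real.pi * Complex.I * k.1 * E k p : ℂ)‖ ≤ 2 * Real.pi * wt k := by
    simp only [norm_mul, Complex.norm_real, Complex.norm_I, mul_one, Complex.norm_intCast,
      Complex.norm_ofNat, Real.norm_eq_abs, abs_of_pos Real.pi_pos, norm_E]
    gcongr
    unfold wt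
    linarith [abs_fst_le k]
  have h4 : ‖(2 * Real.pi * Complex.I * k.2 * E k p : ℂ)‖ ≤ 2 * Real.pi * wt k := by
    simp only [norm_mul, Complex.norm_real, Complex.norm_I, mul_one, Complex.norm_intCast,
      Complex.norm_ofNat, Real.norm_eq_abs, abs_of_pos Real.pi_pos, norm_E]
    gcongr
    unfold wt
    linarith [abs_snd_le k]
  have h5 := mul_le_mul h1 h3 (norm_nonneg _) zero_le_one
  have h6 := mul_le_mul h2 h4 (norm_nonneg _) zero_le_one
  linarith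

lemma hasFDerivAt_Fs {c : ℤ × ℤ → ℂ} (hc : Rap c) (p : ℝ × ℝ) :
    HasFDerivAt (Fs c) ((ContinuousLinearMap.fst ℝ ℝ ℝ).smulRight (Fs (D1 c) p) +
      (ContinuousLinearMap.snd ℝ ℝ ℝ).smulRight (Fs (D2 c) p)) p := by
  have hu : Summable (fun k => 4 * Real.pi * (wt k ^ 1 * ‖c k‖)) := (hc 1).mul_left _
  have h1 : ∀ k x, HasFDerivAt (fun q => c k * E k q) (c k • dE k x) x := by
    intro k x
    have := (hasFDerivAt_E k x).const_mul (c k)
    exact this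
  have h2 : ∀ k x, ‖c k • dE k x‖ ≤ 4 * Real.pi * (wt k ^ 1 * ‖c k‖) := by
    intro k x
    rw [norm_smul]
    have := norm_dE_le k x
    have h3 := norm_nonneg (c k)
    calc ‖c k‖ * ‖dE k x‖ ≤ ‖c k‖ * (4 * Real.pi * wt k) := by gcongr
      _ = _ := by ring
  have h3 := hasFDerivAt_tsum hu h1 h2 (hc.summable_E 0) p
  refine h3.congr_fderiv ?_
  have h4 : Summable (fun k => c k • dE k p) :=
    Summable.of_norm_bounded hu (fun k => h2 k p)
  have h5 : ∀ v : ℝ × ℝ, (∑' k, c k • dE k p) v = ∑' k, c k * dE k p v := by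
    intro v
    exact (ContinuousLinearMap.apply ℝ ℂ v).map_tsum h4
  refine ContinuousLinearMap.ext fun v => ?_
  have h6 : Summable (fun k => D1 c k * E k p) := hc.D1.summable_E p
  have h7 : Summable (fun k => D2 c k * E k p) := hc.D2.summable_E p
  rw [h5]
  have h8 : ∀ k, c k * dE k p v = (v.1 : ℂ) * (D1 c k * E k p) + (v.2 : ℂ) * (D2 c k * E k p) := by
    intro k
    simp [dE, D1, D2]
    ring
  simp_rw [h8]
  rw [(h6.mul_left _).tsum_add (h7.mul_left _), tsum_mul_left, tsum_mul_left]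
  simp [Fs]

lemma contDiff_nat_Fs (n : ℕ) : ∀ {c : ℤ × ℤ → ℂ}, Rap c → ContDiff ℝ n (Fs c) := by
  induction n with
  | zero =>
    intro c hc
    rw [Nat.cast_zero, contDiff_zero]
    exact continuous_iff_continuousAt.2 fun p => (hasFDerivAt_Fs hc p).continuousAt
  | succ n ih =>
    intro c hc
    rw [Nat.cast_succ, contDiff_succ_iff_fderiv]
    refine ⟨fun p => (hasFDerivAt_Fs hc p).differentiableAt, by simp, ?_⟩
    have : fderiv ℝ (Fs c) = fun p => (ContinuousLinearMap.fst ℝ ℝ ℝ).smulRight (Fs (D1 c) p) +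
        (ContinuousLinearMap.snd ℝ ℝ ℝ).smulRight (Fs (D2 c) p) := by
      funext p
      exact (hasFDerivAt_Fs hc p).fderiv
    rw [this]
    have h1 := ih hc.D1
    have h2 := ih hc.D2
    exact (contDiff_const.smulRight h1).add (contDiff_const.smulRight h2)

lemma contDiff_Fs {c : ℤ × ℤ → ℂ} (hc : Rap c) : ContDiff ℝ (⊤ : ℕ∞) (Fs c) :=
  contDiff_infty.2 fun n => contDiff_nat_Fs n hc

/-- Weighted norms of convolutions. -/
lemma tsum_conv_le (w : ℤ × ℤ → ℝ≥0∞) (hw : ∀ k l, w k ≤ w (k - l) * w l) (b c : ℤ × ℤ → ℂ) :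
    ∑' k, w k * ‖conv b c k‖ₑ ≤ (∑' k, w k * ‖b k‖ₑ) * ∑' k, w k * ‖c k‖ₑ := by
  unfold conv
  calc ∑' k, w k * ‖∑' l, b (k - l) * c l‖ₑ
      ≤ ∑' k, ∑' l, (w (k - l) * ‖b (k - l)‖ₑ) * (w l * ‖c l‖ₑ) := by
        refine ENNReal.tsum_le_tsum fun k => ?_
        calc w k * ‖∑' l, b (k - l) * c l‖ₑ ≤ w k * ∑' l, ‖b (k - l) * c l‖ₑ :=
              mul_le_mul_right enorm_tsum_le_tsum_enorm _
          _ = ∑' l, w k * ‖b (k - l) * c l‖ₑ := by rw [ENNReal.tsum_mul_left]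
          _ ≤ _ := by
            refine ENNReal.tsum_le_tsum fun l => ?_
            rw [enorm_mul]
            calc w k * (‖b (k - l)‖ₑ * ‖c l‖ₑ) ≤ (w (k - l) * w l) * (‖b (k - l)‖ₑ * ‖c l‖ₑ) :=
                  mul_le_mul_left (hw k l) _
              _ = _ := by ring
    _ = ∑' l, ∑' k, (w (k - l) * ‖b (k - l)‖ₑ) * (w l * ‖c l‖ₑ) := ENNReal.tsum_comm
    _ = ∑' l, (∑' k, w k * ‖b k‖ₑ) * (w l * ‖c l‖ₑ) := by
        congr 1; ext l
        rw [ENNReal.tsum_mul_right]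
        congr 1
        exact (Equiv.subRight l).tsum_eq (fun k => w k * ‖b k‖ₑ)
    _ = _ := by rw [ENNReal.tsum_mul_left]

/-- The weights, as extended nonnegative real numbers. -/
noncomputable def ewt (ε : ℝ) (s : ℕ) (k : ℤ × ℤ) : ℝ≥0∞ := ENNReal.ofReal ((1 + ε * ‖k‖) ^ s)

lemma ewt_le {ε : ℝ} (hε : 0 ≤ ε) (s : ℕ) (k l : ℤ × ℤ) :
    ewt ε s k ≤ ewt ε s (k - l) * ewt ε s l := by
  unfold ewt
  rw [← ENNReal.ofReal_mul (by positivity)]
  refine ENNReal.ofReal_le_ofReal ?_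
  rw [← mul_pow]
  have h1 : ‖k‖ ≤ ‖k - l‖ + ‖l‖ := by
    have := norm_add_le (k - l) l
    simpa using this
  have h2 : 0 ≤ ε * ‖k - l‖ * (ε * ‖l‖) := by positivity
  have h3 : ε * ‖k‖ ≤ ε * (‖k - l‖ + ‖l‖) := mul_le_mul_of_nonneg_left h1 hε
  gcongr
  nlinarith only [h2, h3]

lemma rap_iff {c : ℤ × ℤ → ℂ} : Rap c ↔ ∀ s : ℕ, ∑' k, ewt 1 s k * ‖c k‖ₑ ≠ ∞ := by
  unfold Rap
  refine forall_congr' fun s => ?_
  have : ∀ k, ewt 1 s k * ‖c k‖ₑ = ‖wt k ^ s * ‖c k‖‖ₑ := by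
    intro k
    have h0 := wt_pos k
    unfold ewt wt
    rw [one_mul, enorm_mul, Real.enorm_of_nonneg (by positivity), enorm_norm]
  simp_rw [this]
  rw [tsum_enorm_ne_top_iff_summable_norm]
  have h1 : (fun k => wt k ^ s * ‖c k‖) = fun k => ‖wt k ^ s * ‖c k‖‖ := by
    funext k
    have h0 := wt_pos k
    rw [Real.norm_of_nonneg (by positivity)]
  rw [← h1]

lemma Rap.conv {b c : ℤ × ℤ → ℂ} (hb : Rap b) (hc : Rap c) : Rap (conv b c) := by
  rw [rap_iff] at *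
  intro s
  refine ne_top_of_le_ne_top (ENNReal.mul_ne_top (hb s) (hc s))
    (tsum_conv_le _ (ewt_le zero_le_one s) b c)

/-- The change of variables `(k, l) ↦ (k - l, l)`. -/
def shear : (ℤ × ℤ) × (ℤ × ℤ) ≃ (ℤ × ℤ) × (ℤ × ℤ) where
  toFun x := (x.1 - x.2, x.2)
  invFun x := (x.1 + x.2, x.2)
  left_inv _ := Prod.ext (sub_add_cancel _ _) rfl
  right_inv _ := Prod.ext (add_sub_cancel_right _ _) rfl

lemma Fs_conv {b c : ℤ × ℤ → ℂ} (hb : Rap b) (hc : Rap c) (p : ℝ × ℝ) :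
    Fs (conv b c) p = Fs b p * Fs c p := by
  have h1 : Summable (fun k => ‖b k * E k p‖) := by simpa [norm_E] using hb.summable
  have h2 : Summable (fun k => ‖c k * E k p‖) := by simpa [norm_E] using hc.summable
  have h3 : Summable (fun x : (ℤ × ℤ) × (ℤ × ℤ) => (b x.1 * E x.1 p) * (c x.2 * E x.2 p)) :=
    summable_mul_of_summable_norm (f := fun k => b k * E k p) (g := fun k => c k * E k p) h1 h2
  have h4 : Summable (fun x : (ℤ × ℤ) × (ℤ × ℤ) =>
      (b (x.1 - x.2) * E (x.1 - x.2) p) * (c x.2 * E x.2 p)) := shear.summable_iff.2 h3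
  have h5 : ∑' x : (ℤ × ℤ) × (ℤ × ℤ), (b (x.1 - x.2) * E (x.1 - x.2) p) * (c x.2 * E x.2 p) =
      ∑' x : (ℤ × ℤ) × (ℤ × ℤ), (b x.1 * E x.1 p) * (c x.2 * E x.2 p) :=
    shear.tsum_eq (fun x : (ℤ × ℤ) × (ℤ × ℤ) => (b x.1 * E x.1 p) * (c x.2 * E x.2 p))
  have h6 : Fs b p * Fs c p =
      ∑' x : (ℤ × ℤ) × (ℤ × ℤ), (b x.1 * E x.1 p) * (c x.2 * E x.2 p) :=
    tsum_mul_tsum_of_summable_norm (f := fun k => b k * E k p) (g := fun k => c k * E k p) h1 h2
  have h7 : ∀ k l : ℤ × ℤ, (b (k - l) * E (k - l) p) * (c l * E l p) =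
      b (k - l) * c l * E k p := by
    intro k l
    have : E k p = E (k - l) p * E l p := by
      rw [← E_add, sub_add_cancel]
    rw [this]
    ring
  rw [h6, ← h5, h4.tsum_prod]
  unfold Fs Iso.conv
  refine tsum_congr fun k => ?_
  rw [← tsum_mul_right]
  exact tsum_congr fun l => (h7 k l).symm

end Pool.Agent.H97.Iso
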