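import Mathlib

set_option autoImplicit false

/-!
# Neumann series in weighted `ℓ¹` spaces

If a kernel `K` has column sums at most `θ < 1`, then `y = g + K y` has a solution `y` given by a
series which does not depend on any weight, and for every weight `w` for which the weighted column
sums are at most `η < 1` (times the weight), `y` lies in the weighted `ℓ¹` space.
-/

namespace Pool.Agent.H97.Iso

open scoped ENNReal NNReal

variable {ι : Type*}

/-- The operator with kernel `K`. -/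
noncomputable def op (K : ι → ι → ℂ) (y : ι → ℂ) : ι → ℂ := fun k => ∑' l, K k l * y l

/-- The terms of the Neumann series. -/
noncomputable def iter (K : ι → ι → ℂ) (g : ι → ℂ) : ℕ → ι → ℂ
  | 0 => g
  | n + 1 => op K (iter K g n)

/-- The weighted `ℓ¹` norm. -/
noncomputable def wn (w : ι → ℝ≥0∞) (y : ι → ℂ) : ℝ≥0∞ := ∑' k, w k * ‖y k‖ₑ

lemma wn_op_le (K : ι → ι → ℂ) (w : ι → ℝ≥0∞) (η : ℝ≥0∞)
    (h : ∀ l, ∑' k, w k * ‖K k l‖ₑ ≤ η * w l) (y : ι → ℂ) :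
    wn w (op K y) ≤ η * wn w y := by
  unfold wn op
  calc ∑' k, w k * ‖∑' l, K k l * y l‖ₑ
      ≤ ∑' k, w k * ∑' l, ‖K k l‖ₑ * ‖y l‖ₑ := by
        refine ENNReal.tsum_le_tsum fun k => ?_
        refine mul_le_mul_right ?_ _
        refine (enorm_tsum_le_tsum_enorm).trans ?_
        refine ENNReal.tsum_le_tsum fun l => ?_
        rw [enorm_mul]
    _ = ∑' k, ∑' l, (w k * ‖K k l‖ₑ) * ‖y l‖ₑ := by
        congr 1; ext k
        rw [← ENNReal.tsum_mul_left]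
        congr 1; ext l
        rw [mul_assoc]
    _ = ∑' l, ∑' k, (w k * ‖K k l‖ₑ) * ‖y l‖ₑ := ENNReal.tsum_comm
    _ = ∑' l, (∑' k, w k * ‖K k l‖ₑ) * ‖y l‖ₑ := by
        congr 1; ext l
        rw [ENNReal.tsum_mul_right]
    _ ≤ ∑' l, (η * w l) * ‖y l‖ₑ := by
        refine ENNReal.tsum_le_tsum fun l => ?_
        exact mul_le_mul_left (h l) _
    _ = η * ∑' l, w l * ‖y l‖ₑ := by
        rw [← ENNReal.tsum_mul_left]
        congr 1; ext l
        rw [mul_assoc]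

lemma wn_iter_le (K : ι → ι → ℂ) (w : ι → ℝ≥0∞) (η : ℝ≥0∞)
    (h : ∀ l, ∑' k, w k * ‖K k l‖ₑ ≤ η * w l) (g : ι → ℂ) (n : ℕ) :
    wn w (iter K g n) ≤ η ^ n * wn w g := by
  induction n with
  | zero => simp [iter]
  | succ n ih =>
    calc wn w (iter K g (n + 1)) ≤ η * wn w (iter K g n) := wn_op_le K w η h _
      _ ≤ η * (η ^ n * wn w g) := by gcongr
      _ = η ^ (n + 1) * wn w g := by ring

/-- The sum of the Neumann series. -/
noncomputable def neu (K : ι → ι → ℂ) (g : ι → ℂ) : ι → ℂ := fun k => ∑' n, iter K g n k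

lemma wn_neu_le (K : ι → ι → ℂ) (w : ι → ℝ≥0∞) (η : ℝ≥0∞)
    (h : ∀ l, ∑' k, w k * ‖K k l‖ₑ ≤ η * w l) (g : ι → ℂ) :
    wn w (neu K g) ≤ (1 - η)⁻¹ * wn w g := by
  unfold neu
  calc wn w (fun k => ∑' n, iter K g n k)
      ≤ ∑' k, w k * ∑' n, ‖iter K g n k‖ₑ := by
        unfold wn
        refine ENNReal.tsum_le_tsum fun k => ?_
        exact mul_le_mul_right (enorm_tsum_le_tsum_enorm) _
    _ = ∑' k, ∑' n, w k * ‖iter K g n k‖ₑ := by
        congr 1; ext k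
        rw [← ENNReal.tsum_mul_left]
    _ = ∑' n, ∑' k, w k * ‖iter K g n k‖ₑ := ENNReal.tsum_comm
    _ ≤ ∑' n : ℕ, η ^ n * wn w g := ENNReal.tsum_le_tsum fun n => wn_iter_le K w η h g n
    _ = (1 - η)⁻¹ * wn w g := by
        rw [ENNReal.tsum_mul_right, ENNReal.tsum_geometric]

lemma summable_iter (K : ι → ι → ℂ) (θ : ℝ≥0∞) (hθ : θ < 1)
    (h : ∀ l, ∑' k, ‖K k l‖ₑ ≤ θ) (g : ι → ℂ) (hg : ∑' k, ‖g k‖ₑ ≠ ∞) :
    ∑' n, ∑' k, ‖iter K g n k‖ₑ ≠ ∞ := by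
  have h1 : ∀ l, ∑' k, (1 : ℝ≥0∞) * ‖K k l‖ₑ ≤ θ * 1 := by
    intro l
    simpa using h l
  have h2 : ∀ n, ∑' k, ‖iter K g n k‖ₑ ≤ θ ^ n * ∑' k, ‖g k‖ₑ := by
    intro n
    have := wn_iter_le K (fun _ => 1) θ h1 g n
    simpa [wn] using this
  refine ne_top_of_le_ne_top ?_ (ENNReal.tsum_le_tsum h2)
  rw [ENNReal.tsum_mul_right, ENNReal.tsum_geometric]
  refine ENNReal.mul_ne_top ?_ hg
  rw [ENNReal.inv_ne_top]
  exact (tsub_pos_of_lt hθ).ne'

theorem neu_eq (K : ι → ι → ℂ) (θ : ℝ≥0∞) (hθ : θ < 1)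
    (h : ∀ l, ∑' k, ‖K k l‖ₑ ≤ θ) (g : ι → ℂ) (hg : ∑' k, ‖g k‖ₑ ≠ ∞) (k : ι) :
    neu K g k = g k + ∑' l, K k l * neu K g l := by
  have hfin := summable_iter K θ hθ h g hg
  have hk1 : ∀ k, ∑' n, ‖iter K g n k‖ₑ ≠ ∞ := by
    intro k
    refine ne_top_of_le_ne_top hfin (ENNReal.tsum_le_tsum fun n => ?_)
    exact ENNReal.le_tsum k
  have hs1 : ∀ k, Summable (fun n => iter K g n k) := fun k =>
    (tsum_enorm_ne_top_iff_summable_norm.1 (hk1 k)).of_norm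
  have hp : Summable (fun p : ι × ℕ => K k p.1 * iter K g p.2 p.1) := by
    refine (tsum_enorm_ne_top_iff_summable_norm.1 ?_).of_norm
    rw [ENNReal.tsum_prod']
    have e1 : ∀ l : ι, ‖K k l‖ₑ ≤ θ := fun l =>
      (ENNReal.le_tsum (f := fun k => ‖K k l‖ₑ) k).trans (h l)
    have e2 : ∑' (l : ι) (n : ℕ), ‖K k l * iter K g n l‖ₑ ≤ θ * ∑' n, ∑' k, ‖iter K g n k‖ₑ := by
      rw [ENNReal.tsum_comm, ← ENNReal.tsum_mul_left]
      refine ENNReal.tsum_le_tsum fun n => ?_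
      rw [← ENNReal.tsum_mul_left]
      refine ENNReal.tsum_le_tsum fun l => ?_
      rw [enorm_mul]
      exact mul_le_mul_left (e1 l) _
    exact ne_top_of_le_ne_top (ENNReal.mul_ne_top (hθ.trans ENNReal.one_lt_top).ne hfin) e2
  have e3 : ∑' l, K k l * neu K g l = ∑' n, iter K g (n + 1) k := by
    have : ∀ l, K k l * neu K g l = ∑' n, K k l * iter K g n l := by
      intro l
      unfold neu
      rw [tsum_mul_left]
    simp_rw [this]
    rw [← Summable.tsum_comm (f := fun l n => K k l * iter K g n l) hp]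
    rfl
  rw [e3]
  unfold neu
  rw [(hs1 k).tsum_eq_zero_add]
  rfl

end Pool.Agent.H97.Iso
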