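import Pool.Agent.H97.Iso.Fourier
import Pool.Agent.H97.Iso.Neumann

set_option autoImplicit false

/-!
# The equation `div (A ∇ u) = 0` for a periodic perturbation `A` of a constant matrix
-/

namespace Pool.Agent.H97.Iso

open scoped ENNReal NNReal Topology
open Filter

/-! ### Small weights -/

lemma summable_weight {bb : ℤ × ℤ → ℝ} (h0 : ∀ k, 0 ≤ bb k)
    (hb : ∀ s : ℕ, Summable (fun k => wt k ^ s * bb k)) (s : ℕ) {ε : ℝ} (hε : 0 ≤ ε) (hε1 : ε ≤ 1) :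
    Summable (fun k => (1 + ε * ‖k‖) ^ s * bb k) := by
  refine Summable.of_nonneg_of_le (fun k => ?_) (fun k => ?_) (hb s)
  · have := h0 k
    positivity
  · have := h0 k
    unfold wt
    gcongr
    nlinarith [norm_nonneg k]

lemma exists_weight {bb : ℤ × ℤ → ℝ} (h0 : ∀ k, 0 ≤ bb k)
    (hb : ∀ s : ℕ, Summable (fun k => wt k ^ s * bb k)) (s : ℕ) {δ : ℝ} (hδ : 0 < δ) :
    ∃ ε : ℝ, 0 < ε ∧ ε ≤ 1 ∧ ∑' k, (1 + ε * ‖k‖) ^ s * bb k ≤ ∑' k, bb k + δ := by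
  have h1 : Tendsto (fun ε : ℝ => ∑' k, (1 + ε * ‖k‖) ^ s * bb k) (𝓝[>] 0)
      (𝓝 (∑' k, (1 + 0 * ‖k‖) ^ s * bb k)) := by
    refine tendsto_tsum_of_dominated_convergence (hb s) (fun k => ?_) ?_
    · refine Tendsto.mul_const _ ?_
      have : Continuous (fun ε : ℝ => (1 + ε * ‖k‖) ^ s) := by fun_prop
      exact (this.tendsto 0).mono_left nhdsWithin_le_nhds
    · have h2 : ∀ᶠ ε : ℝ in 𝓝[>] 0, ε ≤ 1 := by
        have : ∀ᶠ ε : ℝ in 𝓝 0, ε ≤ 1 := (eventually_lt_nhds zero_lt_one).mono fun _ h => h.le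
        exact this.filter_mono nhdsWithin_le_nhds
      filter_upwards [h2, self_mem_nhdsWithin] with ε h3 h4 k
      have h4' : (0 : ℝ) < ε := h4
      have := h0 k
      rw [Real.norm_of_nonneg (by positivity)]
      unfold wt
      gcongr
      nlinarith only [h3, norm_nonneg k]
  have h2 : ∑' k, (1 + (0 : ℝ) * ‖k‖) ^ s * bb k = ∑' k, bb k := by simp
  rw [h2] at h1
  have h3 : ∀ᶠ ε : ℝ in 𝓝[>] 0, ∑' k, (1 + ε * ‖k‖) ^ s * bb k < ∑' k, bb k + δ :=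
    h1.eventually_lt_const (by linarith)
  have h4 : ∀ᶠ ε : ℝ in 𝓝[>] 0, ε ≤ 1 := by
    have : ∀ᶠ ε : ℝ in 𝓝 0, ε ≤ 1 := (eventually_lt_nhds zero_lt_one).mono fun _ h => h.le
    exact this.filter_mono nhdsWithin_le_nhds
  have h5 : ∀ᶠ ε : ℝ in 𝓝[>] 0, 0 < ε := self_mem_nhdsWithin
  obtain ⟨ε, e1, e2, e3⟩ := (h3.and (h4.and h5)).exists
  exact ⟨ε, e3, e2, e1.le⟩

/-- The Neumann series of a kernel dominated by a convolution kernel. -/
theorem neumann_rap {bb : ℤ × ℤ → ℝ} (h0 : ∀ k, 0 ≤ bb k)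
    (hb : ∀ s : ℕ, Summable (fun k => wt k ^ s * bb k)) (hsum : ∑' k, bb k ≤ 1 / 2)
    {K : ℤ × ℤ → ℤ × ℤ → ℂ} (hK : ∀ k l, ‖K k l‖ ≤ bb (k - l)) {g : ℤ × ℤ → ℂ} (hg : Rap g) :
    ∃ y : ℤ × ℤ → ℂ, Rap y ∧ (∀ k, y k = g k + ∑' l, K k l * y l) ∧
      ∑' k, ‖y k‖ ≤ 2 * ∑' k, ‖g k‖ := by
  -- the weighted column sums
  have hcol : ∀ (s : ℕ) (ε : ℝ), 0 ≤ ε → ε ≤ 1 → ∀ l, ∑' k, ewt ε s k * ‖K k l‖ₑ ≤
      ENNReal.ofReal (∑' k, (1 + ε * ‖k‖) ^ s * bb k) * ewt ε s l := by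
    intro s ε hε hε1 l
    have e1 : ∀ k, ewt ε s k * ‖K k l‖ₑ ≤
        (ENNReal.ofReal ((1 + ε * ‖k - l‖) ^ s * bb (k - l))) * ewt ε s l := by
      intro k
      have e2 : ‖K k l‖ₑ ≤ ENNReal.ofReal (bb (k - l)) := by
        rw [← ofReal_norm]
        exact ENNReal.ofReal_le_ofReal (hK k l)
      calc ewt ε s k * ‖K k l‖ₑ ≤ (ewt ε s (k - l) * ewt ε s l) * ENNReal.ofReal (bb (k - l)) :=
            mul_le_mul' (ewt_le hε s k l) e2
        _ = _ := by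
            unfold ewt
            rw [ENNReal.ofReal_mul (by positivity)]
            ring
    refine (ENNReal.tsum_le_tsum e1).trans ?_
    rw [ENNReal.tsum_mul_right]
    refine mul_le_mul_left (le_of_eq ?_) _
    rw [ENNReal.ofReal_tsum_of_nonneg (fun k => by have := h0 k; positivity)
      (summable_weight h0 hb s hε hε1)]
    exact (Equiv.subRight l).tsum_eq
      (fun k => ENNReal.ofReal ((1 + ε * ‖k‖) ^ s * bb k))
  -- the case without weights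
  have hcol0 : ∀ l, ∑' k, ‖K k l‖ₑ ≤ ENNReal.ofReal (1 / 2) := by
    intro l
    have := hcol 0 0 le_rfl zero_le_one l
    simp only [ewt, pow_zero, ENNReal.ofReal_one, one_mul, mul_one] at this
    exact this.trans (ENNReal.ofReal_le_ofReal hsum)
  have hhalf : ENNReal.ofReal (1 / 2) < 1 := by
    rw [ENNReal.ofReal_lt_one]
    norm_num
  have hgs : ∑' k, ‖g k‖ₑ ≠ ∞ := tsum_enorm_ne_top_iff_summable_norm.2 hg.summable
  have hrap : Rap (neu K g) := by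
    rw [rap_iff]
    intro s
    obtain ⟨ε, e1, e2, e3⟩ := exists_weight h0 hb s (show (0 : ℝ) < 1 / 4 by norm_num)
    have h3 : ∑' k, (1 + ε * ‖k‖) ^ s * bb k ≤ 3 / 4 := by linarith
    have h4 : ∀ l, ∑' k, ewt ε s k * ‖K k l‖ₑ ≤ ENNReal.ofReal (3 / 4) * ewt ε s l := fun l =>
      (hcol s ε e1.le e2 l).trans (mul_le_mul_left (ENNReal.ofReal_le_ofReal h3) _)
    have h5 := wn_neu_le K (ewt ε s) (ENNReal.ofReal (3 / 4)) h4 g
    have h6 : wn (ewt ε s) g ≠ ∞ := by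
      refine ne_top_of_le_ne_top (rap_iff.1 hg s) (ENNReal.tsum_le_tsum fun k => ?_)
      refine mul_le_mul_left (ENNReal.ofReal_le_ofReal ?_) _
      gcongr
    have h7 : wn (ewt ε s) (neu K g) ≠ ∞ := by
      refine ne_top_of_le_ne_top (ENNReal.mul_ne_top ?_ h6) h5
      rw [ENNReal.inv_ne_top]
      have : ENNReal.ofReal (3 / 4) < 1 := by
        rw [ENNReal.ofReal_lt_one]
        norm_num
      exact (tsub_pos_of_lt this).ne'
    have h8 : ∀ k, ewt 1 s k * ‖neu K g k‖ₑ ≤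
        ENNReal.ofReal ((ε⁻¹) ^ s) * (ewt ε s k * ‖neu K g k‖ₑ) := by
      intro k
      rw [← mul_assoc]
      refine mul_le_mul_left ?_ _
      unfold ewt
      rw [← ENNReal.ofReal_mul (by positivity)]
      refine ENNReal.ofReal_le_ofReal ?_
      rw [← mul_pow]
      gcongr
      rw [mul_add, mul_one, ← mul_assoc, inv_mul_cancel₀ e1.ne']
      have := (one_le_inv₀ e1).2 e2
      linarith only [this]
    refine ne_top_of_le_ne_top ?_ (ENNReal.tsum_le_tsum h8)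
    rw [ENNReal.tsum_mul_left]
    exact ENNReal.mul_ne_top ENNReal.ofReal_ne_top h7
  refine ⟨neu K g, hrap, neu_eq K _ hhalf hcol0 g hgs, ?_⟩
  have h9 := wn_neu_le K (fun _ => 1) (ENNReal.ofReal (1 / 2)) (by simpa using hcol0) g
  simp only [wn, one_mul] at h9
  have h10 : (1 - ENNReal.ofReal (1 / 2))⁻¹ = ENNReal.ofReal 2 := by
    rw [← ENNReal.ofReal_one, ← ENNReal.ofReal_sub _ (by norm_num),
      ← ENNReal.ofReal_inv_of_pos (by norm_num)]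
    norm_num
  rw [h10] at h9
  have h11 : ∀ c : ℤ × ℤ → ℂ, Rap c → ∑' k, ‖c k‖ₑ = ENNReal.ofReal (∑' k, ‖c k‖) := by
    intro c hc
    rw [ENNReal.ofReal_tsum_of_nonneg (fun k => norm_nonneg _) hc.summable]
    simp_rw [ofReal_norm]
  rw [h11 _ hrap, h11 _ hg, ← ENNReal.ofReal_mul (by norm_num)] at h9
  rwa [ENNReal.ofReal_le_ofReal_iff (by have : 0 ≤ ∑' k, ‖g k‖ := tsum_nonneg fun k => norm_nonneg _
                                        positivity)] at h9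

/-! ### The symbol of the constant coefficient operator -/

/-- The square root of the quadratic form. -/
noncomputable def Rt (a₀ b₀ c₀ : ℝ) (k : ℤ × ℤ) : ℝ :=
  √(a₀ * (k.1 : ℝ) ^ 2 + 2 * b₀ * k.1 * k.2 + c₀ * (k.2 : ℝ) ^ 2)

lemma form_bound {a₀ b₀ c₀ : ℝ} (hdet : a₀ * c₀ - b₀ ^ 2 = 1) (x y : ℝ) :
    x ^ 2 + y ^ 2 ≤ (a₀ + c₀) * (a₀ * x ^ 2 + 2 * b₀ * x * y + c₀ * y ^ 2) := by
  have : (a₀ + c₀) * (a₀ * x ^ 2 + 2 * b₀ * x * y + c₀ * y ^ 2) =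
      (a₀ * c₀ - b₀ ^ 2) * (x ^ 2 + y ^ 2) + (a₀ * x + b₀ * y) ^ 2 + (b₀ * x + c₀ * y) ^ 2 := by
    ring
  rw [this, hdet]
  nlinarith only []

lemma tr_pos {a₀ b₀ c₀ : ℝ} (ha : 0 < a₀) (hdet : a₀ * c₀ - b₀ ^ 2 = 1) : 0 < a₀ + c₀ := by
  have h1 : 0 < a₀ * c₀ := by nlinarith only [hdet]
  have h2 : 0 < c₀ := by
    by_contra h
    push Not at h
    nlinarith only [ha, hdet, h]
  linarith

lemma form_nonneg {a₀ b₀ c₀ : ℝ} (ha : 0 < a₀) (hdet : a₀ * c₀ - b₀ ^ 2 = 1) (x y : ℝ) :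
    0 ≤ a₀ * x ^ 2 + 2 * b₀ * x * y + c₀ * y ^ 2 := by
  have h1 := form_bound hdet x y
  have h2 := tr_pos ha hdet
  by_contra h
  push Not at h
  nlinarith only [h1, h, sq_nonneg x, sq_nonneg y, mul_neg_of_pos_of_neg h2 h]

lemma Rt_sq {a₀ b₀ c₀ : ℝ} (ha : 0 < a₀) (hdet : a₀ * c₀ - b₀ ^ 2 = 1) (k : ℤ × ℤ) :
    Rt a₀ b₀ c₀ k ^ 2 = a₀ * (k.1 : ℝ) ^ 2 + 2 * b₀ * k.1 * k.2 + c₀ * (k.2 : ℝ) ^ 2 :=
  Real.sq_sqrt (form_nonneg ha hdet _ _)

lemma Rt_pos {a₀ b₀ c₀ : ℝ} (ha : 0 < a₀) (hdet : a₀ * c₀ - b₀ ^ 2 = 1) {k : ℤ × ℤ} (hk : k ≠ 0) :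
    0 < Rt a₀ b₀ c₀ k := by
  unfold Rt
  rw [Real.sqrt_pos]
  have h1 := form_bound hdet (k.1 : ℝ) (k.2 : ℝ)
  have h2 := tr_pos ha hdet
  have h3 : 0 < (k.1 : ℝ) ^ 2 + (k.2 : ℝ) ^ 2 := by
    have : k.1 ≠ 0 ∨ k.2 ≠ 0 := by
      by_contra h
      push Not at h
      exact hk (Prod.ext h.1 h.2)
    rcases this with h | h
    · have : (0 : ℝ) < (k.1 : ℝ) ^ 2 := by positivity
      nlinarith only [this]
    · have : (0 : ℝ) < (k.2 : ℝ) ^ 2 := by positivity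
      nlinarith only [this]
  by_contra h
  push Not at h
  nlinarith only [h1, h3, mul_nonpos_of_nonneg_of_nonpos h2.le h]

lemma div_Rt_le {a₀ b₀ c₀ : ℝ} (ha : 0 < a₀) (hdet : a₀ * c₀ - b₀ ^ 2 = 1) (k : ℤ × ℤ) (x : ℝ)
    (hx : x ^ 2 ≤ (k.1 : ℝ) ^ 2 + (k.2 : ℝ) ^ 2) : |x / Rt a₀ b₀ c₀ k| ≤ √(a₀ + c₀) := by
  have h2 := tr_pos ha hdet
  refine Real.abs_le_sqrt ?_
  rw [div_pow]
  by_cases h : Rt a₀ b₀ c₀ k = 0
  · rw [h]
    simp
    exact h2.le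
  · have h3 : 0 < Rt a₀ b₀ c₀ k ^ 2 := by positivity
    rw [div_le_iff₀ h3, Rt_sq ha hdet]
    exact hx.trans (form_bound hdet _ _)

/-- For a small smooth periodic perturbation of a constant matrix there are a solution `u` of
`div (A ∇ u) = 0` close to `x₁` and its conjugate function `v`. -/
theorem solve_near {a₀ b₀ c₀ : ℝ} (ha : 0 < a₀) (hdet : a₀ * c₀ - b₀ ^ 2 = 1) :
    ∃ η > 0, ∀ β₁₁ β₁₂ β₂₂ : ℤ × ℤ → ℂ, Rap β₁₁ → Rap β₁₂ → Rap β₂₂ →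
      ∑' k, ‖β₁₁ k‖ ≤ η → ∑' k, ‖β₁₂ k‖ ≤ η → ∑' k, ‖β₂₂ k‖ ≤ η →
      ∀ B₁₁ B₁₂ B₂₂ : ℝ × ℝ → ℝ, (∀ z, Fs β₁₁ z = (B₁₁ z : ℂ)) → (∀ z, Fs β₁₂ z = (B₁₂ z : ℂ)) →
      (∀ z, Fs β₂₂ z = (B₂₂ z : ℂ)) →
      ∃ u v : ℝ × ℝ → ℝ, ContDiff ℝ (⊤ : ℕ∞) u ∧ ContDiff ℝ (⊤ : ℕ∞) v ∧ ∀ z,
        1 / 2 ≤ fderiv ℝ u z (1, 0) ∧
        fderiv ℝ v z (1, 0) = -((b₀ + B₁₂ z) * fderiv ℝ u z (1, 0) +
          (c₀ + B₂₂ z) * fderiv ℝ u z (0, 1)) ∧
        fderiv ℝ v z (0, 1) = (a₀ + B₁₁ z) * fderiv ℝ u z (1, 0) +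
          (b₀ + B₁₂ z) * fderiv ℝ u z (0, 1) := by
  have htr := tr_pos ha hdet
  refine ⟨1 / (8 * (a₀ + c₀)), by positivity, ?_⟩
  intro β₁₁ β₁₂ β₂₂ hr11 hr12 hr22 hs11 hs12 hs22 B₁₁ B₁₂ B₂₂ hB11 hB12 hB22
  set κ := √(a₀ + c₀) with hκ
  have hκ2 : κ * κ = a₀ + c₀ := Real.mul_self_sqrt htr.le
  have hκ0 : 0 ≤ κ := Real.sqrt_nonneg _
  -- the normalized symbols
  set n1 : ℤ × ℤ → ℝ := fun k => k.1 / Rt a₀ b₀ c₀ k with hn1
  set n2 : ℤ × ℤ → ℝ := fun k => k.2 / Rt a₀ b₀ c₀ k with hn2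
  have bn1 : ∀ k, ‖(n1 k : ℂ)‖ ≤ κ := by
    intro k
    rw [Complex.norm_real]
    exact div_Rt_le ha hdet k _ (by nlinarith only [])
  have bn2 : ∀ k, ‖(n2 k : ℂ)‖ ≤ κ := by
    intro k
    rw [Complex.norm_real]
    exact div_Rt_le ha hdet k _ (by nlinarith only [])
  -- the kernel and its majorant
  set bb : ℤ × ℤ → ℝ := fun k => (a₀ + c₀) * (‖β₁₁ k‖ + 2 * ‖β₁₂ k‖ + ‖β₂₂ k‖) with hbb
  set T : ℤ × ℤ → ℤ × ℤ → ℂ := fun k l =>
    -(n1 k * (β₁₁ (k - l) * (n1 l : ℂ) + β₁₂ (k - l) * n2 l) +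
      n2 k * (β₁₂ (k - l) * (n1 l : ℂ) + β₂₂ (k - l) * n2 l)) with hT
  set g : ℤ × ℤ → ℂ := fun k => -(n1 k * β₁₁ k + n2 k * β₁₂ k) with hg
  have hbb0 : ∀ k, 0 ≤ bb k := fun k => by positivity
  have hbbs : ∀ s : ℕ, Summable (fun k => wt k ^ s * bb k) := by
    intro s
    have := ((hr11 s).add (((hr12 s).mul_left 2).add (hr22 s))).mul_left (a₀ + c₀)
    refine this.congr fun k => ?_
    simp only [hbb]
    ring
  have hbbsum : ∑' k, bb k ≤ 1 / 2 := by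
    have e1 : ∑' k, bb k = (a₀ + c₀) * (∑' k, ‖β₁₁ k‖ + 2 * ∑' k, ‖β₁₂ k‖ + ∑' k, ‖β₂₂ k‖) := by
      simp only [hbb]
      rw [tsum_mul_left, (hr11.summable.add (hr12.summable.mul_left 2)).tsum_add hr22.summable,
        hr11.summable.tsum_add (hr12.summable.mul_left 2), tsum_mul_left]
    rw [e1]
    have e2 : (a₀ + c₀) * (4 * (1 / (8 * (a₀ + c₀)))) = 1 / 2 := by
      field_simp
      norm_num
    rw [← e2]
    gcongr
    linarith
  have hTb : ∀ k l, ‖T k l‖ ≤ bb (k - l) := by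
    intro k l
    simp only [hT, hbb, norm_neg]
    have f1 := bn1 k
    have f2 := bn2 k
    have f3 := bn1 l
    have f4 := bn2 l
    have g1 : ‖β₁₁ (k - l) * (n1 l : ℂ) + β₁₂ (k - l) * n2 l‖ ≤
        ‖β₁₁ (k - l)‖ * κ + ‖β₁₂ (k - l)‖ * κ := by
      refine (norm_add_le _ _).trans ?_
      rw [norm_mul, norm_mul]
      gcongr
    have g2 : ‖β₁₂ (k - l) * (n1 l : ℂ) + β₂₂ (k - l) * n2 l‖ ≤
        ‖β₁₂ (k - l)‖ * κ + ‖β₂₂ (k - l)‖ * κ := by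
      refine (norm_add_le _ _).trans ?_
      rw [norm_mul, norm_mul]
      gcongr
    refine (norm_add_le _ _).trans ?_
    rw [norm_mul, norm_mul]
    calc ‖(n1 k : ℂ)‖ * ‖β₁₁ (k - l) * (n1 l : ℂ) + β₁₂ (k - l) * n2 l‖ +
        ‖(n2 k : ℂ)‖ * ‖β₁₂ (k - l) * (n1 l : ℂ) + β₂₂ (k - l) * n2 l‖
        ≤ κ * (‖β₁₁ (k - l)‖ * κ + ‖β₁₂ (k - l)‖ * κ) +
          κ * (‖β₁₂ (k - l)‖ * κ + ‖β₂₂ (k - l)‖ * κ) := by gcongr
      _ = (κ * κ) * (‖β₁₁ (k - l)‖ + 2 * ‖β₁₂ (k - l)‖ + ‖β₂₂ (k - l)‖) := by ring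
      _ = _ := by rw [hκ2]
  have hgr : Rap g := ((hr11.mul_bdd _ κ bn1).add (hr12.mul_bdd _ κ bn2)).neg
  obtain ⟨y, hy, hyeq, hysum⟩ := neumann_rap hbb0 hbbs hbbsum hTb hgr
  have hgsum : ∑' k, ‖g k‖ ≤ κ * (2 * (1 / (8 * (a₀ + c₀)))) := by
    have e1 : ∀ k, ‖g k‖ ≤ κ * (‖β₁₁ k‖ + ‖β₁₂ k‖) := by
      intro k
      simp only [hg, norm_neg]
      refine (norm_add_le _ _).trans ?_
      rw [norm_mul, norm_mul]
      have f1 := bn1 k
      have f2 := bn2 k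
      calc ‖(n1 k : ℂ)‖ * ‖β₁₁ k‖ + ‖(n2 k : ℂ)‖ * ‖β₁₂ k‖ ≤ κ * ‖β₁₁ k‖ + κ * ‖β₁₂ k‖ := by
            gcongr
        _ = _ := by ring
    refine (Summable.tsum_le_tsum e1 hgr.summable
      ((hr11.summable.add hr12.summable).mul_left _)).trans ?_
    rw [tsum_mul_left, hr11.summable.tsum_add hr12.summable]
    gcongr
    linarith only [hs11, hs12]
  -- the gradient of the correction
  set V1 : ℤ × ℤ → ℂ := fun k => n1 k * y k with hV1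
  set V2 : ℤ × ℤ → ℂ := fun k => n2 k * y k with hV2
  have rV1 : Rap V1 := hy.mul_bdd _ κ bn1
  have rV2 : Rap V2 := hy.mul_bdd _ κ bn2
  have hV1sum : ∑' k, ‖V1 k‖ ≤ 1 / 2 := by
    have e1 : ∀ k, ‖V1 k‖ ≤ κ * ‖y k‖ := by
      intro k
      simp only [hV1, norm_mul]
      have := bn1 k
      gcongr
    refine (Summable.tsum_le_tsum e1 rV1.summable (hy.summable.mul_left _)).trans ?_
    rw [tsum_mul_left]
    calc κ * ∑' k, ‖y k‖ ≤ κ * (2 * (κ * (2 * (1 / (8 * (a₀ + c₀)))))) := by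
          gcongr
          linarith only [hysum, hgsum]
      _ = (κ * κ) * (4 * (1 / (8 * (a₀ + c₀)))) := by ring
      _ = 1 / 2 := by
        rw [hκ2]
        field_simp
        norm_num
  set h1 : ℤ × ℤ → ℂ := fun k => β₁₁ k + (conv β₁₁ V1 k + conv β₁₂ V2 k) with hh1
  set h2 : ℤ × ℤ → ℂ := fun k => β₁₂ k + (conv β₁₂ V1 k + conv β₂₂ V2 k) with hh2
  have rh1 : Rap h1 := hr11.add ((hr11.conv rV1).add (hr12.conv rV2))
  have rh2 : Rap h2 := hr12.add ((hr12.conv rV1).add (hr22.conv rV2))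
  have hsumm : ∀ (β V : ℤ × ℤ → ℂ), Rap β → Rap V → ∀ k, Summable (fun l => β (k - l) * V l) := by
    intro β V hβ hV k
    refine Summable.of_norm_bounded (hV.summable.mul_left (∑' k, ‖β k‖)) fun l => ?_
    rw [norm_mul]
    gcongr
    exact hβ.summable.le_tsum (k - l) fun _ _ => norm_nonneg _
  have hyh : ∀ k, y k = -(n1 k * h1 k + n2 k * h2 k) := by
    intro k
    have e1 : ∀ l, T k l * y l = -(n1 k * (β₁₁ (k - l) * V1 l + β₁₂ (k - l) * V2 l) +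
        n2 k * (β₁₂ (k - l) * V1 l + β₂₂ (k - l) * V2 l)) := by
      intro l
      simp only [hT, hV1, hV2]
      ring
    have s11 := hsumm _ _ hr11 rV1 k
    have s12 := hsumm _ _ hr12 rV2 k
    have s21 := hsumm _ _ hr12 rV1 k
    have s22 := hsumm _ _ hr22 rV2 k
    have e2 : ∑' l, T k l * y l = -(n1 k * (conv β₁₁ V1 k + conv β₁₂ V2 k) +
        n2 k * (conv β₁₂ V1 k + conv β₂₂ V2 k)) := by
      simp_rw [e1]
      rw [tsum_neg, ((s11.add s12).mul_left _).tsum_add ((s21.add s22).mul_left _),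
        tsum_mul_left, tsum_mul_left, s11.tsum_add s12, s21.tsum_add s22]
      rfl
    rw [hyeq k, e2]
    simp only [hg, hh1, hh2]
    ring
  -- the fluxes
  set G1 : ℤ × ℤ → ℂ := fun k => (a₀ * V1 k + b₀ * V2 k) + h1 k with hG1
  set G2 : ℤ × ℤ → ℂ := fun k => (b₀ * V1 k + c₀ * V2 k) + h2 k with hG2
  have rc : ∀ (x : ℝ) (c : ℤ × ℤ → ℂ), Rap c → Rap (fun k => (x : ℂ) * c k) := by
    intro x c hc
    exact hc.mul_bdd (fun _ => (x : ℂ)) |x| fun _ => by rw [Complex.norm_real]; exact le_rfl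
  have rG1 : Rap G1 := ((rc a₀ _ rV1).add (rc b₀ _ rV2)).add rh1
  have rG2 : Rap G2 := ((rc b₀ _ rV1).add (rc c₀ _ rV2)).add rh2
  have hdivfree : ∀ k : ℤ × ℤ, (k.1 : ℂ) * G1 k + k.2 * G2 k = 0 := by
    intro k
    by_cases hk : k = 0
    · subst hk
      simp
    · have hR := Rt_pos ha hdet hk
      have hR2 := Rt_sq ha hdet k
      have hRC : (Rt a₀ b₀ c₀ k : ℂ) ≠ 0 := by exact_mod_cast hR.ne'
      have hR2C : (Rt a₀ b₀ c₀ k : ℂ) ^ 2 =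
          a₀ * (k.1 : ℂ) ^ 2 + 2 * b₀ * k.1 * k.2 + c₀ * (k.2 : ℂ) ^ 2 := by exact_mod_cast hR2
      have e1 : (n1 k : ℂ) * Rt a₀ b₀ c₀ k = k.1 := by
        simp only [hn1]
        push_cast
        field_simp
      have e2 : (n2 k : ℂ) * Rt a₀ b₀ c₀ k = k.2 := by
        simp only [hn2]
        push_cast
        field_simp
      have e3 := hyh k
      have e4 : ((Rt a₀ b₀ c₀ k : ℂ)) * ((k.1 : ℂ) * G1 k + k.2 * G2 k) = 0 := by
        simp only [hG1, hG2, hV1, hV2]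
        have e5 : (Rt a₀ b₀ c₀ k : ℂ) * (k.1 * (a₀ * (n1 k * y k) + b₀ * (n2 k * y k) + h1 k) +
            k.2 * (b₀ * (n1 k * y k) + c₀ * (n2 k * y k) + h2 k)) =
            (a₀ * k.1 * (n1 k * Rt a₀ b₀ c₀ k) + b₀ * k.1 * (n2 k * Rt a₀ b₀ c₀ k) +
              b₀ * k.2 * (n1 k * Rt a₀ b₀ c₀ k) + c₀ * k.2 * (n2 k * Rt a₀ b₀ c₀ k)) * y k +
            Rt a₀ b₀ c₀ k * (k.1 * h1 k + k.2 * h2 k) := by ring
        rw [e5, e1, e2]
        have e6 : (k.1 : ℂ) * h1 k + k.2 * h2 k = -(Rt a₀ b₀ c₀ k * y k) := by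
          rw [e3]
          linear_combination (-(h1 k)) * e1 - h2 k * e2
        rw [e6]
        linear_combination (-y k) * hR2C
      rcases mul_eq_zero.1 e4 with h | h
      · exact absurd h hRC
      · exact h
  -- the potentials
  set ω : ℤ × ℤ → ℂ := fun k => (((2 * Real.pi) * Rt a₀ b₀ c₀ k : ℝ) * Complex.I)⁻¹ * y k with hω
  have rω : Rap ω := by
    refine hy.mul_bdd _ κ fun k => ?_
    rw [norm_inv, norm_mul, Complex.norm_I, mul_one, Complex.norm_real]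
    by_cases hk : k = 0
    · subst hk
      simp [Rt, hκ0]
    · have hR := Rt_pos ha hdet hk
      have h3 : |(1 : ℝ) / Rt a₀ b₀ c₀ k| ≤ κ := by
        refine div_Rt_le ha hdet k 1 ?_
        have : k.1 ≠ 0 ∨ k.2 ≠ 0 := by
          by_contra h
          push Not at h
          exact hk (Prod.ext h.1 h.2)
        have i1 : ∀ j : ℤ, j ≠ 0 → (1 : ℝ) ≤ (j : ℝ) ^ 2 := by
          intro j hj
          have : 1 ≤ j ^ 2 := Int.one_le_abs (pow_ne_zero 2 hj) |>.trans (by rw [abs_of_nonneg (sq_nonneg j)])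
          exact_mod_cast this
        rcases this with h | h
        · nlinarith only [i1 _ h, sq_nonneg (k.2 : ℝ)]
        · nlinarith only [i1 _ h]
      rw [norm_mul, mul_inv, Real.norm_of_nonneg (by positivity), Real.norm_of_nonneg hR.le]
      rw [abs_of_pos (by positivity), one_div] at h3
      have h4 : (2 * Real.pi)⁻¹ ≤ 1 := by
        apply inv_le_one_of_one_le₀
        nlinarith only [Real.pi_gt_three]
      have h5 : 0 ≤ (Rt a₀ b₀ c₀ k)⁻¹ := by positivity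
      calc (2 * Real.pi)⁻¹ * (Rt a₀ b₀ c₀ k)⁻¹ ≤ 1 * (Rt a₀ b₀ c₀ k)⁻¹ := by gcongr
        _ ≤ κ := by linarith only [h3]
  have hD1ω : D1 ω = V1 := by
    funext k
    simp only [D1, hω, hV1, hn1]
    by_cases hk : k = 0
    · subst hk
      simp
    · have hR := Rt_pos ha hdet hk
      have hRC : (Rt a₀ b₀ c₀ k : ℂ) ≠ 0 := by exact_mod_cast hR.ne'
      have hpi : (Real.pi : ℂ) ≠ 0 := by exact_mod_cast Real.pi_pos.ne'
      push_cast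
      field_simp
  have hD2ω : D2 ω = V2 := by
    funext k
    simp only [D2, hω, hV2, hn2]
    by_cases hk : k = 0
    · subst hk
      simp
    · have hR := Rt_pos ha hdet hk
      have hRC : (Rt a₀ b₀ c₀ k : ℂ) ≠ 0 := by exact_mod_cast hR.ne'
      have hpi : (Real.pi : ℂ) ≠ 0 := by exact_mod_cast Real.pi_pos.ne'
      push_cast
      field_simp
  set m1 : ℤ × ℤ → ℂ := fun k =>
    (((2 * Real.pi) * ((k.1 : ℝ) ^ 2 + (k.2 : ℝ) ^ 2) : ℝ) * Complex.I)⁻¹ * (k.1 : ℂ) with hm1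
  set m2 : ℤ × ℤ → ℂ := fun k =>
    (((2 * Real.pi) * ((k.1 : ℝ) ^ 2 + (k.2 : ℝ) ^ 2) : ℝ) * Complex.I)⁻¹ * (k.2 : ℂ) with hm2
  have hsqpos : ∀ k : ℤ × ℤ, k ≠ 0 → (1 : ℝ) ≤ (k.1 : ℝ) ^ 2 + (k.2 : ℝ) ^ 2 := by
    intro k hk
    have : k.1 ≠ 0 ∨ k.2 ≠ 0 := by
      by_contra h
      push Not at h
      exact hk (Prod.ext h.1 h.2)
    have i1 : ∀ j : ℤ, j ≠ 0 → (1 : ℝ) ≤ (j : ℝ) ^ 2 := by
      intro j hj
      have : 1 ≤ j ^ 2 := Int.one_le_abs (pow_ne_zero 2 hj) |>.trans (by rw [abs_of_nonneg (sq_nonneg j)])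
      exact_mod_cast this
    rcases this with h | h
    · nlinarith only [i1 _ h]
    · nlinarith only [h, i1 _ h]
  have hmb : ∀ (k : ℤ × ℤ) (j : ℤ), (j : ℝ) ^ 2 ≤ (k.1 : ℝ) ^ 2 + (k.2 : ℝ) ^ 2 → ‖(((2 * Real.pi) * ((k.1 : ℝ) ^ 2 + (k.2 : ℝ) ^ 2) : ℝ) *
      Complex.I)⁻¹ * (j : ℂ)‖ ≤ 1 := by
    intro k j hj
    rw [norm_mul, norm_inv, norm_mul, Complex.norm_I, mul_one, Complex.norm_real,
      Complex.norm_intCast]
    by_cases hk : k = 0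
    · subst hk
      simp
    · have h1' := hsqpos k hk
      have h4 : |(j : ℝ)| ≤ (k.1 : ℝ) ^ 2 + (k.2 : ℝ) ^ 2 := by
        have : |(j : ℝ)| ^ 2 ≤ ((k.1 : ℝ) ^ 2 + (k.2 : ℝ) ^ 2) ^ 2 := by
          rw [sq_abs]
          nlinarith only [hj, h1']
        exact (pow_le_pow_iff_left₀ (abs_nonneg _) (by positivity) two_ne_zero).1 this
      rw [Real.norm_of_nonneg (by positivity), inv_mul_le_iff₀ (by positivity), mul_one]
      refine h4.trans ?_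
      nlinarith only [Real.pi_gt_three]
  set η : ℤ × ℤ → ℂ := fun k => m2 k * G1 k + (- (m1 k * G2 k)) with hη
  have rη : Rap η := by
    refine (rG1.mul_bdd m2 1 fun k => ?_).add (rG2.mul_bdd m1 1 fun k => ?_).neg
    · exact hmb k k.2 (by nlinarith only [])
    · exact hmb k k.1 (by nlinarith only [])
  set d0 : ℂ → ℤ × ℤ → ℂ := fun c k => if k = 0 then c else 0 with hd0
  have rd0 : ∀ c, Rap (d0 c) := by
    intro c s
    refine summable_of_hasFiniteSupport ((Set.finite_singleton (0 : ℤ × ℤ)).subset ?_)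
    intro k hk
    by_contra h
    simp only [Set.mem_singleton_iff] at h
    simp [hd0, h] at hk
  have hFd0 : ∀ c z, Fs (d0 c) z = c := by
    intro c z
    unfold Fs
    rw [tsum_eq_single 0]
    · simp [hd0, E]
    · intro k hk
      simp [hd0, hk]
  have hD1η : D1 η = fun k => (- G2 k) + d0 (G2 0) k := by
    funext k
    simp only [D1, hη, hm1, hm2, hd0]
    by_cases hk : k = 0
    · subst hk
      simp
    · have h1' := hsqpos k hk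
      have hSC : ((k.1 : ℂ) ^ 2 + (k.2 : ℂ) ^ 2) ≠ 0 := by
        have : ((k.1 : ℝ) ^ 2 + (k.2 : ℝ) ^ 2) ≠ 0 := by linarith only [h1']
        exact_mod_cast this
      have hpi : (Real.pi : ℂ) ≠ 0 := by exact_mod_cast Real.pi_pos.ne'
      have hd := hdivfree k
      rw [if_neg hk]
      push_cast
      field_simp
      linear_combination (k.2 : ℂ) * hd
  have hD2η : D2 η = fun k => G1 k + (- d0 (G1 0) k) := by
    funext k
    simp only [D2, hη, hm1, hm2, hd0]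
    by_cases hk : k = 0
    · subst hk
      simp
    · have h1' := hsqpos k hk
      have hSC : ((k.1 : ℂ) ^ 2 + (k.2 : ℂ) ^ 2) ≠ 0 := by
        have : ((k.1 : ℝ) ^ 2 + (k.2 : ℝ) ^ 2) ≠ 0 := by linarith only [h1']
        exact_mod_cast this
      have hpi : (Real.pi : ℂ) ≠ 0 := by exact_mod_cast Real.pi_pos.ne'
      have hd := hdivfree k
      rw [if_neg hk]
      push_cast
      field_simp
      linear_combination (-(k.1 : ℂ)) * hd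
  -- the values of the fluxes
  have Fc : ∀ (x : ℝ) (c : ℤ × ℤ → ℂ) (z : ℝ × ℝ), Fs (fun k => (x : ℂ) * c k) z = x * Fs c z := by
    intro x c z
    unfold Fs
    rw [← tsum_mul_left]
    simp_rw [mul_assoc]
  have hFG1 : ∀ z, Fs G1 z = (a₀ * Fs V1 z + b₀ * Fs V2 z) +
      (B₁₁ z + (B₁₁ z * Fs V1 z + B₁₂ z * Fs V2 z)) := by
    intro z
    have e1 : Fs G1 z = Fs (fun k => (a₀ : ℂ) * V1 k + (b₀ : ℂ) * V2 k) z + Fs h1 z :=
      Fs_add ((rc a₀ _ rV1).add (rc b₀ _ rV2)) rh1 z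
    have e2 : Fs (fun k => (a₀ : ℂ) * V1 k + (b₀ : ℂ) * V2 k) z = a₀ * Fs V1 z + b₀ * Fs V2 z := by
      rw [Fs_add (rc a₀ _ rV1) (rc b₀ _ rV2), Fc, Fc]
    have e3 : Fs h1 z = Fs β₁₁ z + (Fs (conv β₁₁ V1) z + Fs (conv β₁₂ V2) z) := by
      have := Fs_add hr11 ((hr11.conv rV1).add (hr12.conv rV2)) z
      rw [Fs_add (hr11.conv rV1) (hr12.conv rV2)] at this
      exact this
    rw [e1, e2, e3, Fs_conv hr11 rV1, Fs_conv hr12 rV2, hB11, hB12]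
  have hFG2 : ∀ z, Fs G2 z = (b₀ * Fs V1 z + c₀ * Fs V2 z) +
      (B₁₂ z + (B₁₂ z * Fs V1 z + B₂₂ z * Fs V2 z)) := by
    intro z
    have e1 : Fs G2 z = Fs (fun k => (b₀ : ℂ) * V1 k + (c₀ : ℂ) * V2 k) z + Fs h2 z :=
      Fs_add ((rc b₀ _ rV1).add (rc c₀ _ rV2)) rh2 z
    have e2 : Fs (fun k => (b₀ : ℂ) * V1 k + (c₀ : ℂ) * V2 k) z = b₀ * Fs V1 z + c₀ * Fs V2 z := by
      rw [Fs_add (rc b₀ _ rV1) (rc c₀ _ rV2), Fc, Fc]
    have e3 : Fs h2 z = Fs β₁₂ z + (Fs (conv β₁₂ V1) z + Fs (conv β₂₂ V2) z) := by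
      have := Fs_add hr12 ((hr12.conv rV1).add (hr22.conv rV2)) z
      rw [Fs_add (hr12.conv rV1) (hr22.conv rV2)] at this
      exact this
    rw [e1, e2, e3, Fs_conv hr12 rV1, Fs_conv hr22 rV2, hB12, hB22]
  have hFD1η : ∀ z, Fs (D1 η) z = - Fs G2 z + G2 0 := by
    intro z
    rw [hD1η, Fs_add rG2.neg (rd0 _), Fs_neg, hFd0]
  have hFD2η : ∀ z, Fs (D2 η) z = Fs G1 z + - G1 0 := by
    intro z
    rw [hD2η, Fs_add rG1 (rd0 _).neg, Fs_neg, hFd0]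
  -- the functions and their derivatives
  have dre : ∀ (c : ℤ × ℤ → ℂ), Rap c → ∀ z, HasFDerivAt (fun z => (Fs c z).re)
      ((ContinuousLinearMap.fst ℝ ℝ ℝ).smulRight (Fs (D1 c) z).re +
        (ContinuousLinearMap.snd ℝ ℝ ℝ).smulRight (Fs (D2 c) z).re) z := by
    intro c hc z
    have := Complex.reCLM.hasFDerivAt.comp z (hasFDerivAt_Fs hc z)
    refine this.congr_fderiv ?_
    ext <;> simp
  have cre : ∀ (c : ℤ × ℤ → ℂ), Rap c → ContDiff ℝ (⊤ : ℕ∞) (fun z => (Fs c z).re) := by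
    intro c hc
    exact Complex.reCLM.contDiff.comp (contDiff_Fs hc)
  have du : ∀ z, HasFDerivAt (fun z : ℝ × ℝ => z.1 + (Fs ω z).re)
      (ContinuousLinearMap.fst ℝ ℝ ℝ + ((ContinuousLinearMap.fst ℝ ℝ ℝ).smulRight (Fs (D1 ω) z).re +
        (ContinuousLinearMap.snd ℝ ℝ ℝ).smulRight (Fs (D2 ω) z).re)) z := fun z =>
    hasFDerivAt_fst.add (dre ω rω z)
  have dv : ∀ z, HasFDerivAt (fun z : ℝ × ℝ => (-(b₀ + (G2 0).re)) * z.1 + (a₀ + (G1 0).re) * z.2 +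
        (Fs η z).re)
      ((-(b₀ + (G2 0).re)) • ContinuousLinearMap.fst ℝ ℝ ℝ +
        (a₀ + (G1 0).re) • ContinuousLinearMap.snd ℝ ℝ ℝ +
        ((ContinuousLinearMap.fst ℝ ℝ ℝ).smulRight (Fs (D1 η) z).re +
        (ContinuousLinearMap.snd ℝ ℝ ℝ).smulRight (Fs (D2 η) z).re)) z := fun z =>
    ((hasFDerivAt_fst.const_mul _).add (hasFDerivAt_snd.const_mul _)).add (dre η rη z)
  refine ⟨fun z => z.1 + (Fs ω z).re,
    fun z => (-(b₀ + (G2 0).re)) * z.1 + (a₀ + (G1 0).re) * z.2 + (Fs η z).re,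
    contDiff_fst.add (cre ω rω), ?_, fun z => ?_⟩
  · exact ((contDiff_const.mul contDiff_fst).add (contDiff_const.mul contDiff_snd)).add (cre η rη)
  · rw [(du z).fderiv, (dv z).fderiv, hFD1η, hFD2η, hD1ω, hD2ω, hFG1, hFG2]
    have hre : |(Fs V1 z).re| ≤ 1 / 2 :=
      (Complex.abs_re_le_norm _).trans ((norm_Fs_le rV1 z).trans hV1sum)
    have hre' := (abs_le.1 hre).1
    simp only [add_apply, smul_apply, ContinuousLinearMap.smulRight_apply,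
      ContinuousLinearMap.coe_fst', ContinuousLinearMap.coe_snd', smul_eq_mul, Complex.add_re,
      Complex.neg_re, Complex.mul_re, Complex.ofReal_re, Complex.ofReal_im, mul_zero, zero_mul,
      mul_one, one_mul, sub_zero, add_zero, zero_add]
    refine ⟨by linarith only [hre'], by ring, by ring⟩

end Pool.Agent.H97.Iso
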