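import Pool.Agent.H97.Iso.Coeff
import Pool.Agent.H97.Iso.Solve

set_option autoImplicit false

/-!
# Local solutions of `∇ v = J A ∇ u`
-/

namespace Pool.Agent.H97.Iso

open Set Metric

/-- The derivative of a zoomed function. -/
lemma fderiv_zoom {u₀ : ℝ × ℝ → ℝ} (hu₀ : ContDiff ℝ (⊤ : ℕ∞) u₀) (r : ℝ) (p q w : ℝ × ℝ) :
    fderiv ℝ (fun q => u₀ (r⁻¹ • (q - p))) q w = r⁻¹ * fderiv ℝ u₀ (r⁻¹ • (q - p)) w := by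
  have h1 : HasFDerivAt (fun q : ℝ × ℝ => r⁻¹ • (q - p))
      (r⁻¹ • ContinuousLinearMap.id ℝ (ℝ × ℝ)) q :=
    ((hasFDerivAt_id q).sub_const p).const_smul r⁻¹
  have h2 : HasFDerivAt u₀ (fderiv ℝ u₀ (r⁻¹ • (q - p))) (r⁻¹ • (q - p)) :=
    ((hu₀.differentiable (by simp)) _).hasFDerivAt
  have h3 := (h2.comp q h1).fderiv
  have h4 : fderiv ℝ (fun q => u₀ (r⁻¹ • (q - p))) q =
      (fderiv ℝ u₀ (r⁻¹ • (q - p))).comp (r⁻¹ • ContinuousLinearMap.id ℝ (ℝ × ℝ)) := h3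
  rw [h4]
  simp

/-- Near every point there are smooth `u`, `v` with `∇ v = J A ∇ u` and `∂₁ u > 0`. -/
theorem local_pair {U : Set (ℝ × ℝ)} (hU : IsOpen U) {p : ℝ × ℝ} (hp : p ∈ U)
    {a b c : ℝ × ℝ → ℝ} (ha : ContDiffOn ℝ (⊤ : ℕ∞) a U) (hb : ContDiffOn ℝ (⊤ : ℕ∞) b U)
    (hc : ContDiffOn ℝ (⊤ : ℕ∞) c U) (hpos : ∀ q ∈ U, 0 < a q)
    (hdet : ∀ q ∈ U, a q * c q - b q ^ 2 = 1) :
    ∃ (u v : ℝ × ℝ → ℝ) (W : Set (ℝ × ℝ)), ContDiff ℝ (⊤ : ℕ∞) u ∧ ContDiff ℝ (⊤ : ℕ∞) v ∧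
      IsOpen W ∧ p ∈ W ∧ W ⊆ U ∧ ∀ q ∈ W, 0 < fderiv ℝ u q (1, 0) ∧
        fderiv ℝ v q (1, 0) = -(b q * fderiv ℝ u q (1, 0) + c q * fderiv ℝ u q (0, 1)) ∧
        fderiv ℝ v q (0, 1) = a q * fderiv ℝ u q (1, 0) + b q * fderiv ℝ u q (0, 1) := by
  obtain ⟨s, hs, hs1, hs2, hs3⟩ := exists_saw
  obtain ⟨η, hη, hsol⟩ := solve_near (hpos p hp) (hdet p hp)
  obtain ⟨r₁, hr₁, h₁⟩ := coeff_small hU hp ha hs hs1 hs2 hη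
  obtain ⟨r₂, hr₂, h₂⟩ := coeff_small hU hp hb hs hs1 hs2 hη
  obtain ⟨r₃, hr₃, h₃⟩ := coeff_small hU hp hc hs hs1 hs2 hη
  obtain ⟨ε, hε, hball⟩ := Metric.isOpen_iff.1 hU p hp
  obtain ⟨r, hr, hr1, hr2, hr3, hrε⟩ : ∃ r : ℝ, 0 < r ∧ r ≤ r₁ ∧ r ≤ r₂ ∧ r ≤ r₃ ∧ r ≤ ε := by
    refine ⟨min (min r₁ r₂) (min r₃ ε), by positivity, ?_, ?_, ?_, ?_⟩
    · exact (min_le_left _ _).trans (min_le_left _ _)
    · exact (min_le_left _ _).trans (min_le_right _ _)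
    · exact (min_le_right _ _).trans (min_le_left _ _)
    · exact (min_le_right _ _).trans (min_le_right _ _)
  obtain ⟨β₁, R₁, S₁, F₁⟩ := h₁ r hr hr1
  obtain ⟨β₂, R₂, S₂, F₂⟩ := h₂ r hr hr2
  obtain ⟨β₃, R₃, S₃, F₃⟩ := h₃ r hr hr3
  obtain ⟨u₀, v₀, hu₀, hv₀, huv⟩ := hsol β₁ β₂ β₃ R₁ R₂ R₃ S₁ S₂ S₃ _ _ _ F₁ F₂ F₃
  have hz : ContDiff ℝ (⊤ : ℕ∞) (fun q : ℝ × ℝ => r⁻¹ • (q - p)) :=
    (contDiff_id.sub contDiff_const).const_smul _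
  refine ⟨fun q => u₀ (r⁻¹ • (q - p)), fun q => v₀ (r⁻¹ • (q - p)), ball p (r / 12),
    hu₀.comp hz, hv₀.comp hz, isOpen_ball, mem_ball_self (by positivity),
    (ball_subset_ball (by linarith)).trans hball, ?_⟩
  intro q hq
  rw [fderiv_zoom hu₀, fderiv_zoom hu₀, fderiv_zoom hv₀, fderiv_zoom hv₀]
  obtain ⟨z, hzq⟩ : ∃ z : ℝ × ℝ, z = r⁻¹ • (q - p) := ⟨_, rfl⟩
  rw [← hzq]
  have hqz : p + r • z = q := by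
    rw [hzq, smul_smul, mul_inv_cancel₀ hr.ne', one_smul]
    abel
  have hd : ‖q - p‖ < r / 12 := by rwa [mem_ball, dist_eq_norm] at hq
  have hzn : ‖z‖ ≤ 1 / 12 := by
    rw [hzq, norm_smul, norm_inv, Real.norm_eq_abs, abs_of_pos hr]
    calc r⁻¹ * ‖q - p‖ ≤ r⁻¹ * (r / 12) := by gcongr
      _ = 1 / 12 := by field_simp
  have hz1 : s z.1 = z.1 := hs3 _ ((norm_fst_le z).trans hzn)
  have hz2 : s z.2 = z.2 := hs3 _ ((norm_snd_le z).trans hzn)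
  have hzz : p + r • (s z.1, s z.2) = q := by
    rw [hz1, hz2]
    exact hqz
  obtain ⟨k1, k2, k3⟩ := huv z
  simp only [hzz] at k2 k3
  have hri : 0 < r⁻¹ := inv_pos.2 hr
  refine ⟨mul_pos hri (by linarith), ?_, ?_⟩
  · rw [k2]; ring
  · rw [k3]; ring

end Pool.Agent.H97.Iso
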