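import Pool.Agent.H94.Geo.Defs
import Pool.Agent.H97.Iso.Local

set_option autoImplicit false

/-!
# Isothermal coordinates in the plane
-/

open Manifold Bundle
open scoped ContDiff Topology

noncomputable section

namespace Pool.Agent.H97.Iso

open Pool.Agent.H94.Geo

/-- The coordinates of the plane as a continuous linear equivalence onto `ℝ × ℝ`. -/
def planeEquiv : Plane ≃L[ℝ] ℝ × ℝ :=
  (EuclideanSpace.equiv (Fin 2) ℝ).trans (ContinuousLinearEquiv.finTwoArrow ℝ ℝ)

theorem planeEquiv_apply (q : Plane) : planeEquiv q = (q 0, q 1) := rfl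

theorem planeEquiv_symm_zero (z : ℝ × ℝ) : (planeEquiv.symm z) 0 = z.1 := by
  have h := planeEquiv_apply (planeEquiv.symm z)
  rw [ContinuousLinearEquiv.apply_symm_apply] at h
  exact (congrArg Prod.fst h).symm

theorem planeEquiv_symm_one (z : ℝ × ℝ) : (planeEquiv.symm z) 1 = z.2 := by
  have h := planeEquiv_apply (planeEquiv.symm z)
  rw [ContinuousLinearEquiv.apply_symm_apply] at h
  exact (congrArg Prod.snd h).symm

/-- The map `q ↦ (u q, v q)` of the plane. -/
def pairMap (u v : ℝ × ℝ → ℝ) (q : Plane) : Plane :=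
  planeEquiv.symm (u (planeEquiv q), v (planeEquiv q))

theorem pairMap_contDiff {u v : ℝ × ℝ → ℝ} (hu : ContDiff ℝ (⊤ : ℕ∞) u)
    (hv : ContDiff ℝ (⊤ : ℕ∞) v) : ContDiff ℝ ∞ (pairMap u v) := by
  unfold pairMap
  exact planeEquiv.symm.contDiff.comp
    ((hu.comp planeEquiv.contDiff).prodMk (hv.comp planeEquiv.contDiff))

/-- The derivative of `pairMap`. -/
def pairDeriv (u v : ℝ × ℝ → ℝ) (q : Plane) : Plane →L[ℝ] Plane :=
  (planeEquiv.symm : (ℝ × ℝ) →L[ℝ] Plane).comp
    (((fderiv ℝ u (planeEquiv q)).prod (fderiv ℝ v (planeEquiv q))).comp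
      (planeEquiv : Plane →L[ℝ] ℝ × ℝ))

theorem pairMap_hasFDerivAt {u v : ℝ × ℝ → ℝ} (hu : ContDiff ℝ (⊤ : ℕ∞) u)
    (hv : ContDiff ℝ (⊤ : ℕ∞) v) (q : Plane) :
    HasFDerivAt (pairMap u v) (pairDeriv u v q) q := by
  have h1 : HasFDerivAt u (fderiv ℝ u (planeEquiv q)) (planeEquiv q) :=
    ((hu.differentiable (by simp)) _).hasFDerivAt
  have h2 : HasFDerivAt v (fderiv ℝ v (planeEquiv q)) (planeEquiv q) :=
    ((hv.differentiable (by simp)) _).hasFDerivAt
  have h3 : HasFDerivAt (fun z : ℝ × ℝ => (u z, v z))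
      ((fderiv ℝ u (planeEquiv q)).prod (fderiv ℝ v (planeEquiv q))) (planeEquiv q) :=
    h1.prodMk h2
  have h4 : HasFDerivAt (fun q : Plane => planeEquiv q) (planeEquiv : Plane →L[ℝ] ℝ × ℝ) q :=
    planeEquiv.hasFDerivAt
  have h5 := h3.comp q h4
  have h6 : HasFDerivAt (fun z : ℝ × ℝ => planeEquiv.symm z)
      (planeEquiv.symm : (ℝ × ℝ) →L[ℝ] Plane)
      (u (planeEquiv q), v (planeEquiv q)) := planeEquiv.symm.hasFDerivAt
  exact h6.comp q h5

/-- The directional derivative in terms of the partial derivatives. -/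
theorem lin_apply (l : (ℝ × ℝ) →L[ℝ] ℝ) (w : Plane) :
    l (planeEquiv w) = w 0 * l (1, 0) + w 1 * l (0, 1) := by
  have h : planeEquiv w = w 0 • ((1 : ℝ), (0 : ℝ)) + w 1 • ((0 : ℝ), (1 : ℝ)) := by
    rw [planeEquiv_apply]
    ext <;> simp
  rw [h, map_add, map_smul, map_smul, smul_eq_mul, smul_eq_mul]

theorem pairDeriv_zero (u v : ℝ × ℝ → ℝ) (q w : Plane) :
    pairDeriv u v q w 0 = w 0 * fderiv ℝ u (planeEquiv q) (1, 0) +
      w 1 * fderiv ℝ u (planeEquiv q) (0, 1) := by
  rw [← lin_apply]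
  exact planeEquiv_symm_zero _

theorem pairDeriv_one (u v : ℝ × ℝ → ℝ) (q w : Plane) :
    pairDeriv u v q w 1 = w 0 * fderiv ℝ v (planeEquiv q) (1, 0) +
      w 1 * fderiv ℝ v (planeEquiv q) (0, 1) := by
  rw [← lin_apply]
  exact planeEquiv_symm_one _

/-- The Jacobian of `pairMap`. -/
def jac (u v : ℝ × ℝ → ℝ) (z : ℝ × ℝ) : ℝ :=
  fderiv ℝ u z (1, 0) * fderiv ℝ v z (0, 1) - fderiv ℝ u z (0, 1) * fderiv ℝ v z (1, 0)

theorem jac_contDiff {u v : ℝ × ℝ → ℝ} (hu : ContDiff ℝ (⊤ : ℕ∞) u)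
    (hv : ContDiff ℝ (⊤ : ℕ∞) v) : ContDiff ℝ (⊤ : ℕ∞) (jac u v) := by
  have h1 : ContDiff ℝ (⊤ : ℕ∞) (fderiv ℝ u) := hu.fderiv_right (by simp)
  have h2 : ContDiff ℝ (⊤ : ℕ∞) (fderiv ℝ v) := hv.fderiv_right (by simp)
  unfold jac
  exact ((h1.clm_apply contDiff_const).mul (h2.clm_apply contDiff_const)).sub
    ((h1.clm_apply contDiff_const).mul (h2.clm_apply contDiff_const))

theorem pairDeriv_injective {u v : ℝ × ℝ → ℝ} {q : Plane} (h : jac u v (planeEquiv q) ≠ 0) :
    Function.Injective (pairDeriv u v q) := by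
  rw [injective_iff_map_eq_zero]
  intro w hw
  have h0 := pairDeriv_zero u v q w
  have h1 := pairDeriv_one u v q w
  rw [hw] at h0 h1
  simp only [PiLp.zero_apply] at h0 h1
  unfold jac at h
  have e0 : w 0 = 0 := by
    apply (mul_eq_zero.1 (?_ : _ * w 0 = 0)).resolve_left h
    linear_combination (-(fderiv ℝ v (planeEquiv q) (0, 1))) * h0 +
      (fderiv ℝ u (planeEquiv q) (0, 1)) * h1
  have e1 : w 1 = 0 := by
    apply (mul_eq_zero.1 (?_ : _ * w 1 = 0)).resolve_left h
    linear_combination ((fderiv ℝ v (planeEquiv q) (1, 0))) * h0 -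
      (fderiv ℝ u (planeEquiv q) (1, 0)) * h1
  ext i
  fin_cases i
  · exact e0
  · exact e1

/-- The derivative of `pairMap` as an equivalence. -/
theorem exists_pairEquiv {u v : ℝ × ℝ → ℝ} {q : Plane} (h : jac u v (planeEquiv q) ≠ 0) :
    ∃ e : Plane ≃L[ℝ] Plane, (e : Plane →L[ℝ] Plane) = pairDeriv u v q := by
  refine ⟨(LinearEquiv.ofInjectiveEndo (pairDeriv u v q : Plane →ₗ[ℝ] Plane)
    (pairDeriv_injective h)).toContinuousLinearEquiv, ?_⟩
  ext w : 1
  rfl

/-- Local isothermal coordinates for the smooth metric `E dx² + 2 F dx dy + H dy²` on an open set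
of the plane. -/
theorem planar_isothermal {U : Set Plane} (hU : IsOpen U) {E F H : Plane → ℝ}
    (hE : ContDiffOn ℝ ∞ E U) (hF : ContDiffOn ℝ ∞ F U) (hH : ContDiffOn ℝ ∞ H U)
    (hpos : ∀ q ∈ U, 0 < E q ∧ F q ^ 2 < E q * H q) {p : Plane} (hp : p ∈ U) :
    ∃ (f : OpenPartialHomeomorph Plane Plane) (ρ : Plane → ℝ), p ∈ f.source ∧ f.source ⊆ U ∧
      ContDiffOn ℝ ∞ f f.source ∧ ContDiffOn ℝ ∞ f.symm f.target ∧ ContDiffOn ℝ ∞ ρ f.source ∧
      ∀ q ∈ f.source, 0 < ρ q ∧ ∀ v w : Plane,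
        E q * (v 0 * w 0) + F q * (v 0 * w 1 + v 1 * w 0) + H q * (v 1 * w 1) =
          ρ q * inner ℝ (fderiv ℝ f q v) (fderiv ℝ f q w) := by
  -- the discriminant and its square root
  set D : Plane → ℝ := fun q => E q * H q - F q ^ 2 with hDdef
  have hDpos : ∀ q ∈ U, 0 < D q := fun q hq => by
    have := (hpos q hq).2
    simp only [hDdef]
    linarith
  have hDsm : ContDiffOn ℝ ∞ D U := (hE.mul hH).sub (hF.pow 2)
  set S : Plane → ℝ := fun q => √(D q) with hSdef
  have hSpos : ∀ q ∈ U, 0 < S q := fun q hq => Real.sqrt_pos.2 (hDpos q hq)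
  have hSsq : ∀ q ∈ U, S q ^ 2 = D q := fun q hq => Real.sq_sqrt (hDpos q hq).le
  have hSsm : ContDiffOn ℝ ∞ S U := hDsm.sqrt (fun q hq => (hDpos q hq).ne')
  have hHpos : ∀ q ∈ U, 0 < H q := fun q hq => by
    obtain ⟨h1, h2⟩ := hpos q hq
    by_contra hneg
    push Not at hneg
    have : E q * H q ≤ 0 := mul_nonpos_of_nonneg_of_nonpos h1.le hneg
    nlinarith only [h2, this]
  -- transport to `ℝ × ℝ`
  set V : Set (ℝ × ℝ) := planeEquiv.symm ⁻¹' U with hVdef
  have hV : IsOpen V := hU.preimage planeEquiv.symm.continuous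
  have hpV : planeEquiv p ∈ V := by
    simp only [hVdef, Set.mem_preimage, ContinuousLinearEquiv.symm_apply_apply]
    exact hp
  have hmapsV : Set.MapsTo (fun z : ℝ × ℝ => planeEquiv.symm z) V U := fun z hz => hz
  have htrans : ∀ {g : Plane → ℝ}, ContDiffOn ℝ ∞ g U →
      ContDiffOn ℝ (⊤ : ℕ∞) (fun z => g (planeEquiv.symm z)) V := fun hg =>
    hg.comp planeEquiv.symm.contDiff.contDiffOn hmapsV
  obtain ⟨u, v, W, hu, hv, hWo, hpW, hWV, hW⟩ := local_pair hV hpV
    (a := fun z => (H (planeEquiv.symm z)) / S (planeEquiv.symm z))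
    (b := fun z => -(F (planeEquiv.symm z)) / S (planeEquiv.symm z))
    (c := fun z => (E (planeEquiv.symm z)) / S (planeEquiv.symm z))
    ((htrans hH).div (htrans hSsm) (fun z hz => (hSpos _ hz).ne'))
    ((htrans hF).neg.div (htrans hSsm) (fun z hz => (hSpos _ hz).ne'))
    ((htrans hE).div (htrans hSsm) (fun z hz => (hSpos _ hz).ne'))
    (fun z hz => div_pos (hHpos _ hz) (hSpos _ hz))
    (fun z hz => by
      have h1 := hSsq _ hz
      have h2 := (hSpos _ hz).ne'
      simp only [hDdef] at h1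
      field_simp
      linarith)
  -- the neighbourhood of `p`
  set W' : Set Plane := planeEquiv ⁻¹' W with hW'def
  have hW'o : IsOpen W' := hWo.preimage planeEquiv.continuous
  have hW'U : W' ⊆ U := fun q hq => by
    have := hWV hq
    simp only [hVdef, Set.mem_preimage, ContinuousLinearEquiv.symm_apply_apply] at this
    exact this
  -- the identities
  have key : ∀ q ∈ W', ∃ s t s' t' : ℝ, s = fderiv ℝ u (planeEquiv q) (1, 0) ∧
      t = fderiv ℝ u (planeEquiv q) (0, 1) ∧ s' = fderiv ℝ v (planeEquiv q) (1, 0) ∧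
      t' = fderiv ℝ v (planeEquiv q) (0, 1) ∧ 0 < s ∧ S q * s' = F q * s - E q * t ∧
      S q * t' = H q * s - F q * t := by
    intro q hq
    obtain ⟨h1, h2, h3⟩ := hW _ hq
    have hS := hSpos q (hW'U hq)
    simp only [ContinuousLinearEquiv.symm_apply_apply] at h2 h3
    refine ⟨_, _, _, _, rfl, rfl, rfl, rfl, h1, ?_, ?_⟩
    · rw [h2]
      field_simp
      ring
    · rw [h3]
      field_simp
      ring
  have hjac : ∀ q ∈ W', S q * jac u v (planeEquiv q) =
      H q * fderiv ℝ u (planeEquiv q) (1, 0) ^ 2 - 2 * F q * (fderiv ℝ u (planeEquiv q) (1, 0) *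
        fderiv ℝ u (planeEquiv q) (0, 1)) + E q * fderiv ℝ u (planeEquiv q) (0, 1) ^ 2 := by
    intro q hq
    obtain ⟨s, t, s', t', rfl, rfl, rfl, rfl, h1, h2, h3⟩ := key q hq
    unfold jac
    linear_combination (fderiv ℝ u (planeEquiv q) (1, 0)) * h3 -
      (fderiv ℝ u (planeEquiv q) (0, 1)) * h2
  have hjpos : ∀ q ∈ W', 0 < jac u v (planeEquiv q) := by
    intro q hq
    have h1 := hjac q hq
    have hs := (hW _ hq).1
    have hqU := hW'U hq
    have hEq := (hpos q hqU).1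
    have hS := hSpos q hqU
    have hD := hDpos q hqU
    have h2 : 0 < S q * jac u v (planeEquiv q) := by
      have h3 : E q * (S q * jac u v (planeEquiv q)) =
          D q * fderiv ℝ u (planeEquiv q) (1, 0) ^ 2 +
            (E q * fderiv ℝ u (planeEquiv q) (0, 1) -
              F q * fderiv ℝ u (planeEquiv q) (1, 0)) ^ 2 := by
        rw [h1]
        simp only [hDdef]
        ring
      have h4 : 0 < E q * (S q * jac u v (planeEquiv q)) := by
        rw [h3]
        have := mul_pos hD (pow_pos hs 2)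
        positivity
      exact (mul_pos_iff_of_pos_left hEq).1 h4
    exact (mul_pos_iff_of_pos_left hS).1 h2
  -- the inverse function theorem
  have hpW' : p ∈ W' := hpW
  obtain ⟨e0, he0⟩ := exists_pairEquiv (hjpos p hpW').ne'
  have hf0 : HasFDerivAt (pairMap u v) (e0 : Plane →L[ℝ] Plane) p := by
    rw [he0]
    exact pairMap_hasFDerivAt hu hv p
  have hsm := pairMap_contDiff hu hv
  set f₁ : OpenPartialHomeomorph Plane Plane :=
    ContDiffAt.toOpenPartialHomeomorph (pairMap u v) (hsm.contDiffAt (x := p)) hf0 (by simp)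
    with hf₁
  set f : OpenPartialHomeomorph Plane Plane := f₁.restrOpen W' hW'o with hf
  have hfcoe : (f : Plane → Plane) = pairMap u v := rfl
  have hfs : f.source = f₁.source ∩ W' := rfl
  have hpf : p ∈ f.source := by
    rw [hfs]
    exact ⟨ContDiffAt.mem_toOpenPartialHomeomorph_source _ hf0 _, hpW'⟩
  refine ⟨f, fun q => S q / jac u v (planeEquiv q), hpf, ?_, ?_, ?_, ?_, ?_⟩
  · exact fun q hq => hW'U hq.2
  · rw [hfcoe]
    exact hsm.contDiffOn
  · intro y hy
    have hy' : f.symm y ∈ f.source := f.map_target hy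
    obtain ⟨e1, he1⟩ := exists_pairEquiv (hjpos (f.symm y) hy'.2).ne'
    refine (f.contDiffAt_symm (f₀' := e1) hy ?_ ?_).contDiffWithinAt
    · rw [he1, hfcoe]
      exact pairMap_hasFDerivAt hu hv _
    · rw [hfcoe]
      exact hsm.contDiffAt
  · have h1 : ContDiff ℝ ∞ (fun q : Plane => jac u v (planeEquiv q)) :=
      (jac_contDiff hu hv).comp planeEquiv.contDiff
    exact (hSsm.mono (fun q hq => hW'U hq.2)).div h1.contDiffOn
      (fun q hq => (hjpos q hq.2).ne')
  · intro q hq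
    have hqW := hq.2
    have hqU := hW'U hqW
    have hJ := hjpos q hqW
    have hS := hSpos q hqU
    refine ⟨div_pos hS hJ, ?_⟩
    intro x y
    have hfd : fderiv ℝ f q = pairDeriv u v q := by
      rw [hfcoe]
      exact (pairMap_hasFDerivAt hu hv q).fderiv
    have hin : ∀ x y : Plane, inner ℝ x y = x 0 * y 0 + x 1 * y 1 := by
      intro x y
      rw [PiLp.inner_apply, Fin.sum_univ_two]
      simp [mul_comm]
    have hj := hjac q hqW
    have hSs := hSsq q hqU
    rw [hfd, hin, pairDeriv_zero, pairDeriv_zero, pairDeriv_one, pairDeriv_one]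
    obtain ⟨s, t, s', t', hs, ht, hs', ht', h1, h2, h3⟩ := key q hqW
    simp only [hDdef] at hSs
    rw [← hs, ← ht] at hj
    rw [← hs, ← ht, ← hs', ← ht']
    have hJne := hJ.ne'
    have hSne := hS.ne'
    beta_reduce
    generalize jac u v (planeEquiv q) = J at hj hJne hJ ⊢
    have e1 : S q * (s ^ 2 + s' ^ 2) = E q * J := by
      have : S q ^ 2 * (s ^ 2 + s' ^ 2) = S q * (E q * J) := by
        have h4 : S q ^ 2 * s' ^ 2 = (F q * s - E q * t) ^ 2 := by rw [← h2]; ring
        linear_combination h4 + s ^ 2 * hSs - E q * hj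
      have h5 : S q * (S q * (s ^ 2 + s' ^ 2)) = S q * (E q * J) := by
        rw [← this]; ring
      exact mul_left_cancel₀ hSne h5
    have e2 : S q * (s * t + s' * t') = F q * J := by
      have h4 : S q ^ 2 * (s' * t') = (F q * s - E q * t) * (H q * s - F q * t) := by
        rw [← h2, ← h3]; ring
      have h5 : S q * (S q * (s * t + s' * t')) = S q * (F q * J) := by
        linear_combination h4 + s * t * hSs - F q * hj
      exact mul_left_cancel₀ hSne h5
    have e3 : S q * (t ^ 2 + t' ^ 2) = H q * J := by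
      have h4 : S q ^ 2 * t' ^ 2 = (H q * s - F q * t) ^ 2 := by rw [← h3]; ring
      have h5 : S q * (S q * (t ^ 2 + t' ^ 2)) = S q * (H q * J) := by
        linear_combination h4 + t ^ 2 * hSs - H q * hj
      exact mul_left_cancel₀ hSne h5
    rw [div_mul_eq_mul_div, eq_div_iff hJne]
    linear_combination (-(x 0 * y 0)) * e1 - (x 0 * y 1 + x 1 * y 0) * e2 - (x 1 * y 1) * e3

end Pool.Agent.H97.Iso
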